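import Pool.Agent.Lib.MP_29d7aa_lc.Sis.Basic

set_option autoImplicit false

namespace Pool.Agent.Lib.MP_29d7aa_lc.Sis

open Finset
open scoped Classical

variable {m n d k s T D : ℕ} {p : ℝ}

theorem bad_half (v : Fin n → Bool) :
    (1 / 2 : ℝ) ^ (!(cnt v).bodd).toNat = 1 - ind ((cnt v).bodd = false) / 2 := by
  cases (cnt v).bodd
  · rw [ind_pos rfl]
    norm_num
  · rw [ind_neg (by simp)]
    norm_num

theorem bad_ind_le (x D : ℕ) : ind (x < D) ≤ 2 ^ D * (1 / 2 : ℝ) ^ x := by
  by_cases h : x < D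
  · rw [ind_pos h, one_div, inv_pow, ← div_eq_mul_inv, le_div_iff₀ (by positivity), one_mul]
    exact pow_le_pow_right₀ one_le_two h.le
  · rw [ind_neg h]
    positivity

/-- `ind (nev A < D) ≤ 2 ^ D * ∏ i, (if row i is even then 1 / 2 else 1)`; `sum_pi`, `even_half`. -/
theorem few_even (h0 : 0 ≤ p) (h1 : p ≤ 1 / 2) (m n D : ℕ) :
    ∑ A : Fin m → Fin n → Bool, wm p A * ind (nev A < D) ≤ 2 ^ D * (3 / 4) ^ m := by
  have h1' : p ≤ 1 := by linarith
  have e : ∀ A : Fin m → Fin n → Bool, wm p A * ind (nev A < D) ≤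
      2 ^ D * ∏ i, (wv p (A i) * (1 - ind ((cnt (A i)).bodd = false) / 2)) := fun A => by
    rw [prod_mul_distrib, mul_left_comm]
    refine mul_le_mul_of_nonneg_left ((bad_ind_le _ _).trans_eq ?_) (wm_nonneg h0 h1' A)
    rw [nev, cnt, ← prod_pow_eq_pow_sum]
    simp only [bad_half]
  refine (sum_le_sum fun A _ => e A).trans ?_
  rw [← mul_sum, sum_pi fun (_ : Fin m) (v : Fin n → Bool) =>
    wv p v * (1 - ind ((cnt v).bodd = false) / 2), prod_const, card_univ, Fintype.card_fin]
  refine mul_le_mul_of_nonneg_left (pow_le_pow_left₀ (sum_nonneg fun v _ =>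
    mul_nonneg (wv_nonneg h0 h1' v) (by linarith [ind_le_one ((cnt v).bodd = false)])) ?_ m)
    (by positivity)
  have h := even_half h1 n
  simp only [mul_sub, mul_one, ← mul_div_assoc]
  rw [sum_sub_distrib, sum_wv, ← sum_div]
  linarith

theorem bad_both {i i' : Fin m} (h : i ≠ i') (b : Bool) :
    ∑ v : Fin m → Bool, wv p v * ind (v i = b ∧ v i' = b) = wt p b ^ 2 := by
  have e : ∀ v : Fin m → Bool, wv p v * ind (v i = b ∧ v i' = b) =
      ∏ l, (wt p (v l) * ind (l ∈ ({i, i'} : Finset (Fin m)) → v l = b)) := fun v => by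
    rw [prod_mul_distrib, ← ind_forall, wv]
    congr 1
    exact ind_congr (by simp)
  have e2 : ∀ l : Fin m, ∑ ω, wt p ω * ind (l ∈ ({i, i'} : Finset (Fin m)) → ω = b) =
      if l ∈ ({i, i'} : Finset (Fin m)) then wt p b else 1 := fun l => by
    split_ifs with hl
    · cases b <;> simp [ind, hl]
    · rw [← sum_wt p]
      exact sum_congr rfl fun ω _ => by rw [ind_pos fun hh => absurd hh hl, mul_one]
  simp only [e]
  rw [sum_pi fun (l : Fin m) ω => wt p ω * ind (l ∈ ({i, i'} : Finset (Fin m)) → ω = b)]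
  simp only [e2]
  rw [prod_ite_mem, univ_inter, prod_const, card_pair h]

theorem bad_col (h0 : 0 ≤ p) (h1 : p ≤ 1 / 2) {i i' : Fin m} (h : i ≠ i') :
    ∑ v : Fin m → Bool, wv p v * ind (v i = v i') ≤ Real.exp (-p) := by
  have e : ∀ v : Fin m → Bool, wv p v * ind (v i = v i') =
      wv p v * ind (v i = true ∧ v i' = true) + wv p v * ind (v i = false ∧ v i' = false) :=
    fun v => by cases v i <;> cases v i' <;> simp [ind]
  simp only [e]
  rw [sum_add_distrib, bad_both h, bad_both h]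
  have h2 := Real.add_one_le_exp (-p)
  simp only [wt, if_true, Bool.false_eq_true, if_false]
  nlinarith

/-- Two fixed rows agree on a set `J` of columns with probability `(p ^ 2 + (1 - p) ^ 2) ^ card J`
(transpose: `wm_transpose`, `sum_pi` over the columns). -/
theorem agree_le (h0 : 0 ≤ p) (h1 : p ≤ 1 / 2) {i i' : Fin m} (h : i ≠ i') (J : Finset (Fin n)) :
    ∑ A : Fin m → Fin n → Bool, wm p A * ind (∀ j ∈ J, A i j = A i' j) ≤
      Real.exp (-(p * J.card)) := by
  have h1' : p ≤ 1 := by linarith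
  have e : ∑ A : Fin m → Fin n → Bool, wm p A * ind (∀ j ∈ J, A i j = A i' j) =
      ∑ B : Fin n → Fin m → Bool, ∏ j, (wv p (B j) * ind (j ∈ J → B j i = B j i')) := by
    refine Fintype.sum_equiv (Equiv.piComm _) _ _ fun A => ?_
    rw [wm_transpose, ind_forall, ← prod_mul_distrib]
    rfl
  have e2 : ∀ j : Fin n, ∑ v : Fin m → Bool, wv p v * ind (j ∈ J → v i = v i') ≤
      if j ∈ J then Real.exp (-p) else 1 := fun j => by
    split_ifs with hj
    · refine le_trans (le_of_eq (sum_congr rfl fun v _ => ?_)) (bad_col h0 h1 h)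
      rw [ind_congr (P := j ∈ J → v i = v i') (Q := v i = v i') ⟨fun hh => hh hj, fun hh _ => hh⟩]
    · rw [← sum_wv p m]
      exact le_of_eq (sum_congr rfl fun v _ => by rw [ind_pos fun hh => absurd hh hj, mul_one])
  rw [e, sum_pi fun (j : Fin n) (v : Fin m → Bool) => wv p v * ind (j ∈ J → v i = v i')]
  refine (prod_le_prod (fun j _ => sum_nonneg fun v _ =>
    mul_nonneg (wv_nonneg h0 h1' v) (ind_nonneg _)) fun j _ => e2 j).trans ?_
  rw [prod_ite_mem, univ_inter, prod_const, ← Real.exp_nat_mul]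
  exact le_of_eq (by congr 1; ring)

theorem bad_card (n : ℕ) {s c : ℕ} (hc : c < s) :
    n / s ≤ (univ.filter fun j : Fin n => (j : ℕ) % s = c).card := by
  have hlt : ∀ t : Fin (n / s), c + s * t < n := fun t => by
    have h1 : s * (t + 1) ≤ s * (n / s) := Nat.mul_le_mul_left s t.2
    have h2 := Nat.mul_div_le n s
    rw [mul_add, mul_one] at h1
    omega
  have h := card_le_card_of_injOn (s := (univ : Finset (Fin (n / s))))
    (t := univ.filter fun j : Fin n => (j : ℕ) % s = c) (fun t => ⟨c + s * t, hlt t⟩)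
    (fun t _ => by simp [Nat.mod_eq_of_lt hc]) fun t _ t' _ e => by
      have e' : c + s * t = c + s * t' := congrArg Fin.val e
      exact Fin.ext (Nat.eq_of_mul_eq_mul_left (by omega) (Nat.add_left_cancel e'))
  rwa [card_univ, Fintype.card_fin] at h

/-- Union bound over `i, i', c`; the residue class `c` contains the columns `c + s * t`,
`t < n / s`. -/
theorem not_sep (h0 : 0 ≤ p) (h1 : p ≤ 1 / 2) (m n s : ℕ) :
    ∑ A : Fin m → Fin n → Bool, wm p A * ind (¬ Sep s A) ≤
      (m : ℝ) ^ 2 * s * Real.exp (-(p * (n / s : ℕ))) := by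
  have h1' : p ≤ 1 := by linarith
  have e : ∀ A : Fin m → Fin n → Bool, ind (¬ Sep s A) ≤
      ∑ x ∈ (univ : Finset (Fin m)).offDiag ×ˢ range s,
        ind (∀ j ∈ univ.filter fun j : Fin n => (j : ℕ) % s = x.2, A x.1.1 j = A x.1.2 j) := by
    intro A
    by_cases hA : Sep s A
    · rw [ind_neg (not_not.2 hA)]
      exact sum_nonneg fun _ _ => ind_nonneg _
    · rw [ind_pos hA]
      unfold Sep at hA
      push Not at hA
      obtain ⟨i, i', hi, c, hc, hA⟩ := hA
      refine le_trans ?_ (single_le_sum (a := ((i, i'), c)) (fun _ _ => ind_nonneg _)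
        (mem_product.2 ⟨mem_offDiag.2 ⟨mem_univ _, mem_univ _, hi⟩, mem_range.2 hc⟩))
      refine (ind_pos fun j hj => ?_).ge
      exact hA j (mem_filter.1 hj).2
  refine (sum_le_sum fun A _ => mul_le_mul_of_nonneg_left (e A) (wm_nonneg h0 h1' A)).trans ?_
  simp only [mul_sum]
  rw [sum_comm]
  refine (sum_le_card_nsmul _ _ (Real.exp (-(p * (n / s : ℕ)))) fun x hx => ?_).trans ?_
  · obtain ⟨hx1, hx2⟩ := mem_product.1 hx
    refine (agree_le h0 h1 (mem_offDiag.1 hx1).2.2 _).trans (Real.exp_le_exp.2 (neg_le_neg ?_))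
    exact mul_le_mul_of_nonneg_left (Nat.cast_le.2 (bad_card n (mem_range.1 hx2))) h0
  · rw [nsmul_eq_mul, card_product, card_range, offDiag_card, card_univ, Fintype.card_fin]
    refine mul_le_mul_of_nonneg_right ?_ (Real.exp_pos _).le
    have h2 : (m * m - m) * s ≤ m ^ 2 * s := Nat.mul_le_mul_right s (by rw [sq]; omega)
    exact_mod_cast h2

end Pool.Agent.Lib.MP_29d7aa_lc.Sis
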