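import Pool.Agent.Lib.MP_29d7aa_lc.Sis.Defs

set_option autoImplicit false

namespace Pool.Agent.Lib.MP_29d7aa_lc.Sis

open Finset
open scoped Classical

variable {m n d k s T D : ℕ} {p : ℝ}

theorem ind_pos {P : Prop} (h : P) : ind P = 1 := if_pos h

theorem ind_neg {P : Prop} (h : ¬ P) : ind P = 0 := if_neg h

theorem ind_nonneg (P : Prop) : 0 ≤ ind P := by
  unfold ind; split_ifs <;> norm_num

theorem ind_le_one (P : Prop) : ind P ≤ 1 := by
  unfold ind; split_ifs <;> norm_num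

theorem ind_mono {P Q : Prop} (h : P → Q) : ind P ≤ ind Q := by
  by_cases hP : P
  · rw [ind_pos hP, ind_pos (h hP)]
  · rw [ind_neg hP]; exact ind_nonneg Q

theorem ind_congr {P Q : Prop} (h : P ↔ Q) : ind P = ind Q := by rw [propext h]

theorem ind_and (P Q : Prop) : ind (P ∧ Q) = ind P * ind Q := by
  by_cases hP : P <;> by_cases hQ : Q <;> simp [ind, hP, hQ]

theorem ind_forall {ι : Type} [Fintype ι] (P : ι → Prop) : ind (∀ i, P i) = ∏ i, ind (P i) := by
  by_cases h : ∀ i, P i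
  · rw [ind_pos h, Finset.prod_eq_one fun i _ => ind_pos (h i)]
  · rw [ind_neg h]
    obtain ⟨i, hi⟩ := not_forall.1 h
    exact (Finset.prod_eq_zero (mem_univ i) (ind_neg hi)).symm

theorem ind_not (P : Prop) : ind (¬ P) = 1 - ind P := by
  by_cases hP : P <;> simp [ind, hP]

theorem wt_nonneg (h0 : 0 ≤ p) (h1 : p ≤ 1) (b : Bool) : 0 ≤ wt p b := by
  cases b <;> simp [wt, h0, h1]

theorem wv_nonneg (h0 : 0 ≤ p) (h1 : p ≤ 1) (v : Fin n → Bool) : 0 ≤ wv p v :=
  prod_nonneg fun _ _ => wt_nonneg h0 h1 _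

theorem wm_nonneg (h0 : 0 ≤ p) (h1 : p ≤ 1) (A : Fin m → Fin n → Bool) : 0 ≤ wm p A :=
  prod_nonneg fun _ _ => wv_nonneg h0 h1 _

/-- Independence: a sum over functions of a product of factors. -/
theorem sum_pi {ι Ω R : Type} [Fintype ι] [DecidableEq ι] [Fintype Ω] [CommSemiring R]
    (g : ι → Ω → R) : ∑ C : ι → Ω, ∏ i, g i (C i) = ∏ i, ∑ ω, g i ω :=
  (Fintype.prod_sum g).symm

theorem sum_wt (p : ℝ) : ∑ b, wt p b = 1 := by simp [wt]

theorem sum_wv (p : ℝ) (n : ℕ) : ∑ v : Fin n → Bool, wv p v = 1 := by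
  unfold wv
  rw [sum_pi fun (_ : Fin n) b => wt p b]
  simp only [sum_wt, prod_const_one]

theorem sum_wm (p : ℝ) (m n : ℕ) : ∑ A : Fin m → Fin n → Bool, wm p A = 1 := by
  unfold wm
  rw [sum_pi fun (_ : Fin m) (v : Fin n → Bool) => wv p v]
  simp [sum_wv]

theorem bodd_false_iff (x : ℕ) : x.bodd = false ↔ x % 2 = 0 := by
  rw [Nat.mod_two_of_bodd]
  cases x.bodd <;> simp

theorem bodd_true_iff (x : ℕ) : x.bodd = true ↔ x % 2 = 1 := by
  rw [Nat.mod_two_of_bodd]
  cases x.bodd <;> simp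

theorem cnt_le (v : Fin n → Bool) : cnt v ≤ n := by
  unfold cnt
  calc ∑ j, (v j).toNat ≤ ∑ _j : Fin n, 1 := sum_le_sum fun j _ => Bool.toNat_le _
    _ = n := by simp

theorem cnt_eq_card (v : Fin n → Bool) : cnt v = (univ.filter fun j => v j = true).card := by
  unfold cnt
  rw [card_filter]
  exact sum_congr rfl fun j _ => by cases v j <;> simp

theorem cnt_succ (v : Fin (n + 1) → Bool) : cnt v = (v 0).toNat + cnt fun j => v j.succ := by
  unfold cnt
  rw [Fin.sum_univ_succ]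

theorem wv_eq_pow (p : ℝ) (v : Fin n → Bool) : wv p v = p ^ cnt v * (1 - p) ^ (n - cnt v) := by
  induction n with
  | zero => simp [wv, cnt]
  | succ n ih =>
    have h := cnt_le fun j : Fin n => v j.succ
    have e : wv p v = wt p (v 0) * wv p fun j : Fin n => v j.succ := by
      unfold wv
      rw [Fin.prod_univ_succ]
    rw [e, ih, cnt_succ]
    cases v 0
    · simp only [wt, Bool.toNat_false, zero_add, Bool.false_eq_true, if_false]
      rw [show n + 1 - (cnt fun j : Fin n => v j.succ) = n - (cnt fun j : Fin n => v j.succ) + 1 by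
        omega, pow_succ]
      ring
    · simp only [wt, Bool.toNat_true, if_true]
      rw [show n + 1 - (1 + cnt fun j : Fin n => v j.succ) = n - (cnt fun j : Fin n => v j.succ) by
        omega, add_comm 1, pow_succ]
      ring

/-- Generating function of the number of ones. -/
theorem sum_wv_pow {R : Type} [CommRing R] [Algebra ℝ R] (p : ℝ) (n : ℕ) (w : R) :
    ∑ v : Fin n → Bool, algebraMap ℝ R (wv p v) * w ^ cnt v =
      (1 - algebraMap ℝ R p + algebraMap ℝ R p * w) ^ n := by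
  have e : ∀ v : Fin n → Bool, algebraMap ℝ R (wv p v) * w ^ cnt v =
      ∏ j, (algebraMap ℝ R (wt p (v j)) * w ^ (v j).toNat) := fun v => by
    rw [prod_mul_distrib, wv, map_prod, cnt, prod_pow_eq_pow_sum]
  simp only [e]
  rw [sum_pi fun (_ : Fin n) b => algebraMap ℝ R (wt p b) * w ^ b.toNat]
  simp [wt, add_comm]

/-- A row is even with probability at least one half. -/
theorem even_half (h1 : p ≤ 1 / 2) (n : ℕ) :
    1 / 2 ≤ ∑ v : Fin n → Bool, wv p v * ind ((cnt v).bodd = false) := by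
  have h := sum_wv_pow p n (-1 : ℝ)
  simp only [Algebra.algebraMap_self, RingHom.id_apply] at h
  have h2 : 0 ≤ (1 - p + p * -1) ^ n := pow_nonneg (by linarith) n
  have e : ∀ v : Fin n → Bool, wv p v * ind ((cnt v).bodd = false) =
      (wv p v + wv p v * (-1) ^ cnt v) / 2 := fun v => by
    rcases Nat.even_or_odd (cnt v) with h | h
    · rw [h.neg_one_pow, ind_pos ((bodd_false_iff _).2 (Nat.even_iff.1 h))]
      ring
    · rw [h.neg_one_pow, ind_neg (by
        rw [bodd_false_iff, Nat.odd_iff.1 h]; exact one_ne_zero)]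
      ring
  simp only [e]
  rw [← sum_div, sum_add_distrib, sum_wv, h]
  linarith

theorem wm_transpose (p : ℝ) (A : Fin m → Fin n → Bool) :
    wm p A = ∏ j, wv p fun i => A i j := by
  unfold wm wv
  exact prod_comm

theorem ex3_mono {q : ℕ} (h0 : 0 ≤ p) (h1 : p ≤ 1)
    {F G : (Fin d → Fin n → Fin q) → (Fin d → Fin n → Fin k → Bool) →
      (Fin d → Fin n → Fin T → Col k s) → ℝ} (h : ∀ U ε C, F U ε C ≤ G U ε C) :
    ex3 q p F ≤ ex3 q p G := by
  unfold ex3
  refine div_le_div_of_nonneg_right (sum_le_sum fun U _ => sum_le_sum fun ε _ =>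
    sum_le_sum fun C _ => mul_le_mul_of_nonneg_left (h U ε C) ?_) (by positivity)
  exact prod_nonneg fun _ _ => prod_nonneg fun _ _ => prod_nonneg fun _ _ => wm_nonneg h0 h1 _

theorem ex3_sum {q : ℕ} {ι : Type} (S : Finset ι) (c : ι → ℝ)
    (F : ι → (Fin d → Fin n → Fin q) → (Fin d → Fin n → Fin k → Bool) →
      (Fin d → Fin n → Fin T → Col k s) → ℝ) :
    ex3 q p (fun U ε C => ∑ i ∈ S, c i * F i U ε C) = ∑ i ∈ S, c i * ex3 q p (F i) := by
  unfold ex3
  simp only [← mul_div_assoc, ← sum_div, mul_sum]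
  congr 1
  symm
  rw [sum_comm]
  refine sum_congr rfl fun U _ => ?_
  rw [sum_comm]
  refine sum_congr rfl fun ε _ => ?_
  rw [sum_comm]
  exact sum_congr rfl fun C _ => sum_congr rfl fun i _ => by ring

end Pool.Agent.Lib.MP_29d7aa_lc.Sis
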