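import Pool.Agent.Lib.MP_29d7aa_lc.Sis.Basic

set_option autoImplicit false

namespace Pool.Agent.Lib.MP_29d7aa_lc.Sis

open Finset
open scoped Classical

variable {m n d k s T D : ℕ} {p : ℝ}

/-- Parity arrays that agree with the parities of `M` off column `0` are adjusted to the parities
of `M`. -/
theorem adj_eq (M : Fin n → Col k s) (he : ∀ a, Even (∑ j, cnt (M j a))) (ε : Fin n → Fin k → Bool)
    (h : ∀ (j : Fin n) a, (j : ℕ) ≠ 0 → ε j a = (cnt (M j a)).bodd) (j : Fin n) (a : Fin k) :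
    adj ε j a = (cnt (M j a)).bodd := by
  unfold adj
  by_cases hj : (j : ℕ) = 0
  · rw [if_pos hj]
    have h1 : (cnt fun j' : Fin n => decide ((j' : ℕ) ≠ 0) && ε j' a) =
        ∑ j' ∈ univ.erase j, cnt (M j' a) % 2 := by
      rw [cnt, ← add_sum_erase _ _ (mem_univ j)]
      have h2 : (decide ((j : ℕ) ≠ 0) && ε j a).toNat = 0 := by simp [hj]
      rw [h2, zero_add]
      refine sum_congr rfl fun j' hj' => ?_
      have h3 : (j' : ℕ) ≠ 0 := fun h0 => (mem_erase.1 hj').1 (Fin.ext (h0.trans hj.symm))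
      rw [h j' a h3, Nat.mod_two_of_bodd, decide_eq_true h3, Bool.true_and]
    have h4 := Nat.even_iff.1 (he a)
    rw [← add_sum_erase _ _ (mem_univ j)] at h4
    have h5 := sum_nat_mod (univ.erase j) 2 fun j' => cnt (M j' a)
    rw [← h1] at h5
    have h6 : (cnt fun j' : Fin n => decide ((j' : ℕ) ≠ 0) && ε j' a) % 2 = cnt (M j a) % 2 := by
      omega
    rw [Nat.mod_two_of_bodd, Nat.mod_two_of_bodd] at h6
    revert h6
    cases (cnt fun j' : Fin n => decide ((j' : ℕ) ≠ 0) && ε j' a).bodd <;>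
      cases (cnt (M j a)).bodd <;> simp
  · rw [if_neg hj]
    exact h j a hj

/-- Keep only the term `U r j = val (M r j) % q` and the `2 ^ (d * k)` arrays `ε` of `adj_eq`
(column `0` is free). For these the sum over `C` factors (`ind_forall`, `sum_pi` twice) and each
factor is bounded below by `hc`. -/
theorem sel_lb {q : ℕ} (hq : 0 < q) (hn : 0 < n) (h0 : 0 ≤ p) (h1 : p ≤ 1) {γ : ℝ} (hγ : 0 ≤ γ)
    (hc : Cell q k s T p γ) (M : Fin d → Fin n → Col k s)
    (he : ∀ r a, Even (∑ j, cnt (M r j a))) :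
    2 ^ (d * k) * γ ^ (d * n) * ∏ r, ∏ j, wm p (M r j) ≤
      ex3 (T := T) q p fun U ε C => ind (Sel q U ε C M) := by
  let U0 : Fin d → Fin n → Fin q := fun r j => ⟨val (M r j) % q, Nat.mod_lt _ hq⟩
  let E : (Fin d → Fin k → Bool) → Fin d → Fin n → Fin k → Bool := fun b r j a =>
    if (j : ℕ) = 0 then b r a else (cnt (M r j a)).bodd
  have hE : Function.Injective E := fun b b' hb => funext fun r => funext fun a => by
    have := congrFun (congrFun (congrFun hb r) ⟨0, hn⟩) a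
    simpa [E] using this
  let G : (Fin d → Fin n → Fin q) → (Fin d → Fin n → Fin k → Bool) → ℝ := fun U ε =>
    ∑ C : Fin d → Fin n → Fin T → Col k s,
      (∏ r, ∏ j, ∏ τ, wm p (C r j τ)) * ind (Sel q U ε C M)
  have hG : ∀ U ε, 0 ≤ G U ε := fun U ε => sum_nonneg fun C _ =>
    mul_nonneg (prod_nonneg fun _ _ => prod_nonneg fun _ _ => prod_nonneg fun _ _ =>
      wm_nonneg h0 h1 _) (ind_nonneg _)
  have hb : ∀ b, (γ * (q * 2 ^ k)) ^ (d * n) * ∏ r, ∏ j, wm p (M r j) ≤ G U0 (E b) := by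
    intro b
    have e1 : G U0 (E b) = ∏ r, ∏ j, ∑ C : Fin T → Col k s, (∏ τ, wm p (C τ)) *
        ind (First (Hit q (U0 r j) (adj (E b r) j)) C (M r j)) := by
      simp only [G, Sel, ind_forall, ← prod_mul_distrib]
      rw [sum_pi fun r (C : Fin n → Fin T → Col k s) => ∏ j, ((∏ τ, wm p (C j τ)) *
        ind (First (Hit q (U0 r j) (adj (E b r) j)) (C j) (M r j)))]
      refine prod_congr rfl fun r _ => ?_
      exact sum_pi fun j (C : Fin T → Col k s) => (∏ τ, wm p (C τ)) *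
        ind (First (Hit q (U0 r j) (adj (E b r) j)) C (M r j))
    have e2 : (γ * (q * 2 ^ k)) ^ (d * n) * ∏ r, ∏ j, wm p (M r j) =
        ∏ r, ∏ j, (γ * (q * 2 ^ k) * wm p (M r j)) := by
      simp only [prod_mul_distrib, prod_const, card_univ, Fintype.card_fin, ← pow_mul, mul_pow]
      rw [mul_comm n d, mul_comm (k * n) d, mul_comm k (d * n), mul_comm k n, mul_assoc]
      ring
    rw [e1, e2]
    refine prod_le_prod (fun r _ => prod_nonneg fun j _ =>
      mul_nonneg (by positivity) (wm_nonneg h0 h1 _)) fun r _ => prod_le_prod (fun j _ =>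
      mul_nonneg (by positivity) (wm_nonneg h0 h1 _)) fun j _ => hc _ _ _ ⟨rfl, fun a => ?_⟩
    exact (adj_eq (M r) (he r) (E b r) (fun j a hj => if_neg hj) j a).symm
  have h2 : 2 ^ (d * k) * ((γ * (q * 2 ^ k)) ^ (d * n) * ∏ r, ∏ j, wm p (M r j)) ≤
      ∑ U, ∑ ε, G U ε := by
    calc _ = ∑ _b : Fin d → Fin k → Bool,
          (γ * (q * 2 ^ k)) ^ (d * n) * ∏ r, ∏ j, wm p (M r j) := by
          rw [sum_const, card_univ, nsmul_eq_mul]
          simp only [Fintype.card_fun, Fintype.card_bool, Fintype.card_fin, ← pow_mul, mul_comm k d]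
          push_cast
          rfl
      _ ≤ ∑ b, G U0 (E b) := sum_le_sum fun b _ => hb b
      _ = ∑ ε ∈ univ.image E, G U0 ε := (sum_image fun b _ b' _ h => hE h).symm
      _ ≤ ∑ ε, G U0 ε := sum_le_sum_of_subset_of_nonneg (subset_univ _) fun ε _ _ => hG _ _
      _ ≤ ∑ U, ∑ ε, G U ε := single_le_sum (f := fun U => ∑ ε, G U ε)
          (fun U _ => sum_nonneg fun ε _ => hG U ε) (mem_univ U0)
  have hq' : (0 : ℝ) < q := by exact_mod_cast hq
  unfold ex3
  rw [le_div_iff₀ (by positivity)]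
  refine le_trans (le_of_eq ?_) h2
  rw [mul_pow, mul_pow, ← pow_mul, mul_comm k (d * n)]
  ring

end Pool.Agent.Lib.MP_29d7aa_lc.Sis
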