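import Pool.Agent.Lib.MP_29d7aa_lc.Sis.Link1

set_option autoImplicit false

namespace Pool.Agent.Lib.MP_29d7aa_lc.Sis

open Finset
open scoped Classical

variable {m n d k s T D : ℕ} {p : ℝ}

variable {R : ℕ}

/-- Restriction of uniform bits along an injective map is uniform (split `Fin R` into the range of
`e` and its complement, e.g. `Equiv.piEquivPiSubtypeProd`, `Equiv.ofInjective`). -/
theorem restrict {ι : Type} [Fintype ι] [DecidableEq ι] (e : ι → Fin R) (he : Function.Injective e)
    (F : (ι → Bool) → ℝ) :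
    (∑ ω : Fin R → Bool, F fun x => ω (e x)) / 2 ^ R = (∑ η : ι → Bool, F η) / 2 ^ Fintype.card ι := by
  let σ : ι ⊕ ((Set.range e)ᶜ : Set (Fin R)) ≃ Fin R :=
    (Equiv.sumCongr (Equiv.ofInjective e he) (Equiv.refl _)).trans
      (Equiv.Set.sumCompl (Set.range e))
  have hσ : ∀ x, σ (Sum.inl x) = e x := fun x => by simp [σ]
  let Φ : (Fin R → Bool) ≃ (ι → Bool) × (((Set.range e)ᶜ : Set (Fin R)) → Bool) :=
    (Equiv.arrowCongr σ.symm (Equiv.refl Bool)).trans (Equiv.sumArrowEquivProdArrow _ _ _)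
  have hΦ : ∀ ω : Fin R → Bool, (Φ ω).1 = fun x => ω (e x) := fun ω => by
    funext x
    simp [Φ, Equiv.sumArrowEquivProdArrow, hσ]
  have hc : R = Fintype.card ι + Fintype.card ((Set.range e)ᶜ : Set (Fin R)) := by
    rw [← Fintype.card_sum, Fintype.card_congr σ, Fintype.card_fin]
  have h1 : (∑ ω : Fin R → Bool, F fun x => ω (e x)) =
      ∑ z : (ι → Bool) × (((Set.range e)ᶜ : Set (Fin R)) → Bool), F z.1 := by
    rw [← Φ.sum_comp]
    exact sum_congr rfl fun ω _ => by rw [hΦ]
  rw [h1, Fintype.sum_prod_type]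
  simp only [sum_const, card_univ, Fintype.card_fun, Fintype.card_bool, nsmul_eq_mul]
  rw [← mul_sum]
  generalize Fintype.card ((Set.range e)ᶜ : Set (Fin R)) = c at hc
  rw [hc, pow_add]
  push_cast
  field_simp

theorem coin_min (l th : ℕ) :
    (univ.filter fun c : Fin l → Bool =>
      Pool.Agent.Lib.MP_acf5a6_lc.valM (List.ofFn c) < th).card = min th (2 ^ l) := by
  induction l generalizing th with
  | zero =>
    rcases Nat.eq_zero_or_pos th with h | h
    · simp [h]
    · rw [min_eq_right (by simpa using Nat.succ_le_of_lt h)]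
      simp [Pool.Agent.Lib.MP_acf5a6_lc.valM, h]
  | succ l ih =>
    have h1 := ih th
    have h2 := ih (th - 2 ^ l)
    rw [card_filter] at h1 h2 ⊢
    rw [← (Fin.consEquiv fun _ : Fin (l + 1) => Bool).sum_comp, Fintype.sum_prod_type,
      Fintype.sum_bool]
    simp only [Fin.consEquiv_apply, List.ofFn_succ, Fin.cons_zero, Fin.cons_succ,
      Pool.Agent.Lib.MP_acf5a6_lc.valM, List.length_ofFn, Bool.toNat_true, Bool.toNat_false,
      one_mul, zero_mul, zero_add]
    have e : ∀ v : ℕ, (2 ^ l + v < th) = (v < th - 2 ^ l) := fun v => propext (by omega)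
    simp only [e]
    rw [h1, h2, pow_succ]
    omega

/-- Exactly `th` of the bit strings of length `l` have value `< th` (`foldl_bit`, `valM`, `valM_lt`
in `MP_acf5a6_lc/Arith`; induction on `l` for all `th ≤ 2 ^ l`). -/
theorem count_lt (l th : ℕ) (h : th ≤ 2 ^ l) :
    (univ.filter fun c : Fin l → Bool =>
      (List.ofFn c).foldl (fun n b => Nat.bit b n) 0 < th).card = th := by
  simp only [Pool.Agent.Lib.MP_acf5a6_lc.foldl_bit, zero_mul, zero_add]
  rw [coin_min, min_eq_left h]

theorem coin_fib (l th : ℕ) (h : th ≤ 2 ^ l) (y : Bool) :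
    ∑ c : Fin l → Bool, ind (decide ((List.ofFn c).foldl (fun n b => Nat.bit b n) 0 < th) = y) =
      2 ^ l * wt ((th : ℝ) / 2 ^ l) y := by
  have h1 : ∑ c : Fin l → Bool, ind ((List.ofFn c).foldl (fun n b => Nat.bit b n) 0 < th) =
      (th : ℝ) := by
    conv_rhs => rw [← count_lt l th h, card_filter]
    push_cast
    exact sum_congr rfl fun c _ => by unfold ind; congr
  cases y
  · simp only [decide_eq_false_iff_not, ind_not]
    rw [sum_sub_distrib, h1]
    simp only [sum_const, card_univ, Fintype.card_fun, Fintype.card_bool, Fintype.card_fin,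
      nsmul_eq_mul, wt, Bool.false_eq_true, if_false]
    push_cast
    field_simp
  · simp only [decide_eq_true_eq]
    rw [h1]
    simp only [wt, if_true]
    field_simp

/-- Blockwise maps of uniform bits: curry, then sum fibrewise over `y` and use `sum_pi`. -/
theorem blocks {κ : Type} [Fintype κ] [DecidableEq κ] (l : ℕ) (th : κ → ℕ) (h : ∀ x, th x ≤ 2 ^ l)
    (F : (κ → Bool) → ℝ) :
    (∑ η : κ × Fin l → Bool, F fun x =>
        decide ((List.ofFn fun b => η (x, b)).foldl (fun n b => Nat.bit b n) 0 < th x)) /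
      2 ^ Fintype.card (κ × Fin l) =
    ∑ y : κ → Bool, (∏ x, wt ((th x : ℝ) / 2 ^ l) (y x)) * F y := by
  have h1 : (∑ η : κ × Fin l → Bool, F fun x =>
        decide ((List.ofFn fun b => η (x, b)).foldl (fun n b => Nat.bit b n) 0 < th x)) =
      ∑ η : κ → Fin l → Bool, F fun x =>
        decide ((List.ofFn (η x)).foldl (fun n b => Nat.bit b n) 0 < th x) := by
    rw [← (Equiv.curry κ (Fin l) Bool).sum_comp]
    rfl
  have h2 : ∀ z : κ → Bool, F z = ∑ y : κ → Bool, (∏ x, ind (z x = y x)) * F y := fun z => by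
    rw [sum_eq_single z]
    · rw [prod_eq_one fun x _ => ind_pos rfl, one_mul]
    · intro y _ hy
      rw [← ind_forall, ind_neg fun hh => hy (funext hh).symm, zero_mul]
    · exact fun hz => absurd (mem_univ z) hz
  rw [h1, sum_congr rfl fun η _ => h2 _, sum_comm, sum_div]
  refine sum_congr rfl fun y _ => ?_
  rw [← sum_mul, sum_pi fun (x : κ) (c : Fin l → Bool) =>
    ind (decide ((List.ofFn c).foldl (fun n b => Nat.bit b n) 0 < th x) = y x),
    prod_congr rfl fun x _ => coin_fib l (th x) (h x) (y x), prod_mul_distrib, prod_const,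
    card_univ, Fintype.card_prod, Fintype.card_fin, mul_comm (Fintype.card κ), pow_mul]
  field_simp

/-- `restrict` with `e (x, b) = b + B * code x`, then `blocks`. -/
theorem push {κ : Type} [Fintype κ] [DecidableEq κ] {B l : ℕ} (code th : κ → ℕ)
    (hc : Function.Injective code) (hB : ∀ x, B * (code x + 1) ≤ R) (hl : l ≤ B) (hR : l ≤ R)
    (h : ∀ x, th x ≤ 2 ^ l) (F : (κ → Bool) → ℝ) :
    (∑ ω : Fin R → Bool, F fun x => coin (List.range R) (List.ofFn ω) B l (th x) (code x)) / 2 ^ R =
    ∑ y : κ → Bool, (∏ x, wt ((th x : ℝ) / 2 ^ l) (y x)) * F y := by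
  have hlt : ∀ z : κ × Fin l, (z.2 : ℕ) + B * code z.1 < R := fun z => by
    have h1 := hB z.1
    have h2 := z.2.2
    rw [mul_add, mul_one] at h1
    omega
  let e : κ × Fin l → Fin R := fun z => ⟨z.2 + B * code z.1, hlt z⟩
  have he : Function.Injective e := by
    rintro ⟨x, b⟩ ⟨x', b'⟩ hh
    have h1 : (b : ℕ) + B * code x = b' + B * code x' := congrArg Fin.val hh
    have hb : (b : ℕ) < B := b.2.trans_le hl
    have hb' : (b' : ℕ) < B := b'.2.trans_le hl
    have h2 := congrArg (· % B) h1
    simp only [Nat.add_mul_mod_self_left, Nat.mod_eq_of_lt hb, Nat.mod_eq_of_lt hb'] at h2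
    rw [h2] at h1
    have h3 : code x = code x' :=
      Nat.eq_of_mul_eq_mul_left (by omega) (Nat.add_left_cancel h1)
    exact Prod.ext (hc h3) (Fin.ext h2)
  rw [← blocks l th h F, ← restrict e he fun η : κ × Fin l → Bool => F fun x =>
    decide ((List.ofFn fun b => η (x, b)).foldl (fun n b => Nat.bit b n) 0 < th x)]
  congr 1
  refine sum_congr rfl fun ω _ => ?_
  congr 1
  funext x
  unfold coin
  rw [take_range hR, map_range]
  have e1 : (fun i : Fin l => (List.ofFn ω).getD (i + B * code x) false) =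
      fun b => ω (e (x, b)) := by
    funext b
    exact getD_ofFn ω (e (x, b)) false
  rw [e1]

end Pool.Agent.Lib.MP_29d7aa_lc.Sis
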