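import Pool.Agent.Lib.MP_29d7aa_lc.Sis.Basic

set_option autoImplicit false

namespace Pool.Agent.Lib.MP_29d7aa_lc.Sis

open Finset
open scoped Classical

variable {m n d k s T D : ℕ} {p : ℝ}

/-- `rank A` is strictly increasing on the even rows and takes there all values below `nev A`. -/
theorem exists_pos (A : Fin m → Fin n → Bool) (hD : D ≤ nev A) :
    ∃ pos : Fin D → Fin m, Function.Injective pos ∧ (∀ x, (cnt (A (pos x))).bodd = false) ∧
      (∀ x, rank A (pos x) = x) ∧
      ∀ i, (cnt (A i)).bodd = false → rank A i < D → ∃ x, pos x = i := by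
  let S : Finset (Fin m) := univ.filter fun i => (cnt (A i)).bodd = false
  have hS : S.card = nev A := by
    rw [nev, cnt_eq_card]
    congr 1
    ext i
    simp [S]
  let e := S.orderEmbOfFin hS
  have hmem : ∀ y, (cnt (A (e y))).bodd = false := fun y =>
    (mem_filter.1 (S.orderEmbOfFin_mem hS y)).2
  have hsurj : ∀ i, (cnt (A i)).bodd = false → ∃ y, e y = i := by
    intro i hi
    have h : i ∈ Set.range e := by
      rw [S.range_orderEmbOfFin hS]
      exact mem_filter.2 ⟨mem_univ i, hi⟩
    exact h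
  have hrank : ∀ y, rank A (e y) = y := by
    intro y
    rw [rank, cnt_eq_card, ← Fin.card_Iio y, ← card_map e.toEmbedding]
    congr 1
    ext i
    simp only [mem_filter, mem_univ, true_and, Bool.and_eq_true, decide_eq_true_eq,
      Bool.not_eq_true', mem_map, mem_Iio, RelEmbedding.coe_toEmbedding]
    constructor
    · rintro ⟨h1, h2⟩
      obtain ⟨z, rfl⟩ := hsurj i h2
      exact ⟨z, e.lt_iff_lt.1 h1, rfl⟩
    · rintro ⟨z, hz, rfl⟩
      exact ⟨e.lt_iff_lt.2 hz, hmem z⟩
  refine ⟨fun x => e (Fin.castLE hD x), e.injective.comp (Fin.castLE_injective hD),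
    fun x => hmem _, fun x => hrank _, fun i hi hr => ?_⟩
  obtain ⟨y, rfl⟩ := hsurj i hi
  rw [hrank] at hr
  exact ⟨⟨y, hr⟩, rfl⟩

/-- Every `A₀` that has even rows at the places `pos x` and agrees with `A` elsewhere has the
parities and ranks of `A`, so `plant A₀ (A ∘ pos) = A`. The weight of these `A₀` factors over the
rows (`ind_forall`, `sum_pi`): it is the product of `wv p (A i)` over the other rows times a `D`-th
power of a number `≥ 1 / 2` (`even_half`). -/
theorem plant_lb (h0 : 0 ≤ p) (h1 : p ≤ 1 / 2) (A : Fin m → Fin n → Bool) (hD : D ≤ nev A) :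
    ∃ pos : Fin D → Fin m, Function.Injective pos ∧ (∀ x, (cnt (A (pos x))).bodd = false) ∧
      wm p A ≤ 2 ^ D * wm p (fun x => A (pos x)) *
        ∑ A₀ : Fin m → Fin n → Bool, wm p A₀ * ind (plant A₀ (fun x => A (pos x)) = A) := by
  obtain ⟨pos, hinj, hev, hrk, hsj⟩ := exists_pos A hD
  refine ⟨pos, hinj, hev, ?_⟩
  have hp1 : p ≤ 1 := by linarith
  let R : Finset (Fin m) := univ.map ⟨pos, hinj⟩
  have hR : ∀ i, i ∈ R ↔ ∃ x, pos x = i := fun i => by simp [R]
  let P : Fin m → (Fin n → Bool) → Prop := fun i v =>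
    if i ∈ R then (cnt v).bodd = false else v = A i
  have hP : ∀ A₀ : Fin m → Fin n → Bool, (∀ i, P i (A₀ i)) →
      plant A₀ (fun x => A (pos x)) = A := by
    intro A₀ h
    have hpar : ∀ i, (cnt (A₀ i)).bodd = (cnt (A i)).bodd := by
      intro i
      have h2 := h i
      by_cases hi : i ∈ R
      · simp only [P, if_pos hi] at h2
        obtain ⟨x, rfl⟩ := (hR i).1 hi
        rw [h2, hev x]
      · simp only [P, if_neg hi] at h2
        rw [h2]
    have hr : ∀ i, rank A₀ i = rank A i := fun i => by simp only [rank, hpar]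
    funext i
    unfold plant
    split_ifs with hc
    · obtain ⟨x, rfl⟩ := hsj i (by rw [← hpar]; exact hc.1) (by rw [← hr]; exact hc.2)
      have e : (⟨rank A₀ (pos x), hc.2⟩ : Fin D) = x := Fin.ext (by simp only [hr, hrk])
      rw [e]
    · have hi : i ∉ R := by
        intro hi
        obtain ⟨x, rfl⟩ := (hR i).1 hi
        exact hc ⟨by rw [hpar, hev], by rw [hr, hrk]; exact x.2⟩
      have h2 := h i
      simpa only [P, if_neg hi] using h2
  have h2 : ∏ i, (if i ∈ R then (1 / 2 : ℝ) else wv p (A i)) ≤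
      ∑ A₀ : Fin m → Fin n → Bool, wm p A₀ * ind (plant A₀ (fun x => A (pos x)) = A) := by
    calc ∏ i, (if i ∈ R then (1 / 2 : ℝ) else wv p (A i))
        ≤ ∏ i, ∑ v, wv p v * ind (P i v) := by
          refine prod_le_prod (fun i _ => ?_) fun i _ => ?_
          · split_ifs
            · norm_num
            · exact wv_nonneg h0 hp1 _
          · by_cases hi : i ∈ R
            · simp only [P, if_pos hi]
              exact even_half h1 n
            · simp only [P, if_neg hi]
              rw [sum_eq_single (A i) (fun v _ hv => by rw [ind_neg hv, mul_zero])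
                (fun h => absurd (mem_univ _) h), ind_pos rfl, mul_one]
      _ = ∑ A₀ : Fin m → Fin n → Bool, wm p A₀ * ind (∀ i, P i (A₀ i)) := by
          rw [← sum_pi fun i v => wv p v * ind (P i v)]
          refine sum_congr rfl fun A₀ _ => ?_
          rw [prod_mul_distrib, ind_forall, wm]
      _ ≤ _ := sum_le_sum fun A₀ _ =>
          mul_le_mul_of_nonneg_left (ind_mono (hP A₀)) (wm_nonneg h0 hp1 _)
  have e1 : (2 : ℝ) ^ D = ∏ i, (if i ∈ R then (2 : ℝ) else 1) := by
    rw [prod_ite_mem, univ_inter, prod_const, card_map, card_univ, Fintype.card_fin]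
  have e2 : wm p (fun x => A (pos x)) = ∏ i, (if i ∈ R then wv p (A i) else 1) := by
    rw [prod_ite_mem, univ_inter, prod_map]
    rfl
  refine le_trans (le_of_eq ?_) (mul_le_mul_of_nonneg_left h2
    (mul_nonneg (by positivity) (wm_nonneg h0 hp1 _)))
  rw [e1, e2, ← prod_mul_distrib, ← prod_mul_distrib, wm]
  refine prod_congr rfl fun i _ => ?_
  split_ifs <;> ring

end Pool.Agent.Lib.MP_29d7aa_lc.Sis
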