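import Pool.Agent.Lib.MP_29d7aa_lc.Sis.Flip

set_option autoImplicit false

namespace Pool.Agent.Lib.MP_29d7aa_lc.Sis

open Finset
open scoped Classical

variable {m n d k s T D : ℕ} {p : ℝ}

theorem sound_rs (v : Fin n → Bool) (x : Fin n → ℤ) :
    rs v x = ∑ j, ((v j).toNat : ℤ) * x j := by
  unfold rs
  exact sum_congr rfl fun j _ => by cases v j <;> simp

/-- `rs v x ≡ cnt v` modulo `2`. -/
theorem even_zero {v : Fin n → Bool} {x : Fin n → ℤ} (hx : ∀ j, x j = 1 ∨ x j = -1)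
    (he : (cnt v).bodd = false) (h : |rs v x| ≤ 1) : rs v x = 0 := by
  have h1 : (2 : ℤ) ∣ rs v x - (cnt v : ℕ) := by
    rw [sound_rs, cnt, Nat.cast_sum, ← sum_sub_distrib]
    refine dvd_sum fun j _ => ?_
    rcases hx j with e | e <;> rw [e] <;> cases v j <;> simp
  rw [bodd_false_iff] at he
  rw [abs_le] at h
  omega

/-- `U r j ≡ val (M' r j)` modulo `q`, and
`∑ j, val (M' r j) * x j = ∑ a, 2 ^ a * ∑ i, rs (M (enc (r, a, i))) x` by `cnt_flip_col`. -/
theorem run_sound [NeZero s] {q : ℕ} {U : Fin d → Fin n → Fin q} {ε : Fin d → Fin n → Fin k → Bool}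
    {C : Fin d → Fin n → Fin T → Col k s} {M : Fin (d * (k * s)) → Fin n → Bool}
    (h : Run q U ε C M) {x : Fin n → ℤ} (hx : ∀ y, rs (M y) x = 0) (r : Fin d) :
    (q : ℤ) ∣ ∑ j, ((U r j : ℕ) : ℤ) * x j := by
  obtain ⟨M', hS, hM⟩ := h
  have h1 : ∀ a : Fin k, ∑ j, (cnt (M' r j a) : ℤ) * x j = 0 := by
    intro a
    have e : ∀ j, cnt (M' r j a) = cnt fun i => M (enc d k s (r, a, i)) j := fun j => by
      simp only [hM, fix]
      exact (cnt_flip_col (fun i j => M' r j a i) _ j).symm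
    calc ∑ j, (cnt (M' r j a) : ℤ) * x j
        = ∑ j, ∑ i, ((M (enc d k s (r, a, i)) j).toNat : ℤ) * x j := by
          refine sum_congr rfl fun j _ => ?_
          rw [e, cnt, Nat.cast_sum, sum_mul]
      _ = ∑ i, rs (M (enc d k s (r, a, i))) x := by
          rw [sum_comm]
          exact sum_congr rfl fun i _ => (sound_rs _ _).symm
      _ = 0 := sum_eq_zero fun i _ => hx _
  have h2 : ∑ j, (val (M' r j) : ℤ) * x j = 0 := by
    calc ∑ j, (val (M' r j) : ℤ) * x j
        = ∑ j, ∑ a : Fin k, 2 ^ (a : ℕ) * ((cnt (M' r j a) : ℤ) * x j) := by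
          refine sum_congr rfl fun j _ => ?_
          rw [val, Nat.cast_sum, sum_mul]
          exact sum_congr rfl fun a _ => by push_cast; ring
      _ = 0 := by
          rw [sum_comm]
          exact sum_eq_zero fun a _ => by rw [← mul_sum, h1, mul_zero]
  rw [← sub_zero (∑ j, ((U r j : ℕ) : ℤ) * x j), ← h2, ← sum_sub_distrib]
  refine dvd_sum fun j _ => ?_
  rw [← sub_mul, ← (hS r j).1.1]
  refine Dvd.dvd.mul_right ?_ _
  exact (Nat.modEq_iff_dvd.1 (Nat.mod_modEq _ q).symm)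

end Pool.Agent.Lib.MP_29d7aa_lc.Sis
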