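import Pool.Agent.Lib.MP_29d7aa_lc.Sis.Run
import Pool.Agent.Lib.MP_29d7aa_lc.Sis.Plant
import Pool.Agent.Lib.MP_29d7aa_lc.Sis.Bad
import Pool.Agent.Lib.MP_29d7aa_lc.Sis.Sound

set_option autoImplicit false

namespace Pool.Agent.Lib.MP_29d7aa_lc.Sis

open Finset
open scoped Classical

variable {m n d k s T D : ℕ} {p : ℝ}

theorem core_choose (h0 : 0 ≤ p) (h1 : p ≤ 1 / 2) (A : Fin m → Fin n → Bool) :
    ∃ M : Fin D → Fin n → Bool, D ≤ nev A → (∀ y, ∃ i, M y = A i) ∧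
      (∀ y, (cnt (M y)).bodd = false) ∧ (Sep s A → Sep s M) ∧
      wm p A ≤ 2 ^ D * wm p M * ∑ A₀ : Fin m → Fin n → Bool, wm p A₀ * ind (plant A₀ M = A) := by
  by_cases hD : D ≤ nev A
  · obtain ⟨pos, hinj, he, hw⟩ := plant_lb h0 h1 A hD
    exact ⟨fun y => A (pos y), fun _ => ⟨fun y => ⟨pos y, rfl⟩, he,
      fun hS i i' hi => hS _ _ (hinj.ne hi), hw⟩⟩
  · exact ⟨fun _ _ => false, fun h => absurd h hD⟩

theorem core_point {ι : Type} (S : Finset ι) (P Q : ι → Prop) (R : Prop)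
    (hu : ∀ i j, P i → Q i → P j → Q j → i = j) (hR : ∀ i ∈ S, P i → Q i → R) :
    ∑ i ∈ S, ind (P i) * ind (Q i) ≤ ind R := by
  by_cases h : ∃ i ∈ S, P i ∧ Q i
  · obtain ⟨i, hi, hP, hQ⟩ := h
    rw [sum_eq_single_of_mem i hi fun j _ hj => by
      rw [← ind_and]
      exact ind_neg fun h' => hj (hu j i h'.1 h'.2 hP hQ), ← ind_and, ind_pos (hR i hi hP hQ)]
    exact ind_le_one _
  · rw [sum_eq_zero fun i hi => by
      rw [← ind_and]
      exact ind_neg fun h' => h ⟨i, hi, h'⟩]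
    exact ind_nonneg _

theorem core_three (P Q R : Prop) : ind R ≤ ind (P ∧ Q ∧ R) + ind (¬ P) + ind (¬ Q) := by
  by_cases hP : P <;> by_cases hQ : Q <;> by_cases hR : R <;> simp [ind, hP, hQ, hR]

/-- Call `A` good if `d * (k * s) ≤ nev A` and `Sep s A`; for good `A` choose `pos A` by `plant_lb`
and put `M A = A ∘ pos A` (even rows, `Sep s`). Pointwise in `A₀, U, ε, C` the indicator on the right
is at least the sum over good `A` of
`ind (∀ i, |rs (A i) (x (emb A))| ≤ 1) * ind (plant A₀ (M A) = A) * ind (Run q U ε C (M A))`: at most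
one term is nonzero (`link`, `hemb`), and then `even_zero`, `run_sound` apply. By `ex3_sum`,
`run_lb`, `plant_lb` the right side is at least `γ ^ (d * n)` times the weight `G ≤ 1` of the good
solved `A`; `few_even`, `not_sep` bound the rest. -/
theorem core [NeZero s] {α : Type} {q : ℕ} (hq : 0 < q) (hn : 0 < n) (h0 : 0 ≤ p) (h1 : p ≤ 1 / 2)
    {γ : ℝ} (hγ : 0 ≤ γ) (hγ1 : γ ≤ 1) (hc : Cell q k s T p γ)
    (emb : (Fin m → Fin n → Bool) → α) (hemb : Function.Injective emb)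
    (out : (Fin m → Fin n → Bool) → (Fin d → Fin n → Fin q) → (Fin d → Fin n → Fin k → Bool) →
      (Fin d → Fin n → Fin T → Col k s) → α)
    (link : ∀ A₀ U ε C M, Run q U ε C M → out A₀ U ε C = emb (plant A₀ M))
    (x : α → Fin n → ℤ) (hx : ∀ a j, x a j = 1 ∨ x a j = -1) :
    ∑ A : Fin m → Fin n → Bool, wm p A * ind (∀ i, |rs (A i) (x (emb A))| ≤ 1) -
        (2 ^ (d * (k * s)) * (3 / 4) ^ m + (m : ℝ) ^ 2 * s * Real.exp (-(p * (n / s : ℕ))) +
          (1 - γ ^ (d * n))) ≤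
      ∑ A₀ : Fin m → Fin n → Bool, wm p A₀ * ex3 q p fun U ε C =>
        ind (∀ r, (q : ℤ) ∣ ∑ j, ((U r j : ℕ) : ℤ) * x (out A₀ U ε C) j) := by
  have h1' : p ≤ 1 := by linarith
  choose M hM using core_choose (m := m) (n := n) (s := s) (D := d * (k * s)) h0 h1
  obtain ⟨S, hS⟩ : ∃ S : Finset (Fin m → Fin n → Bool), S = univ.filter fun A =>
      d * (k * s) ≤ nev A ∧ Sep s A ∧ ∀ i, |rs (A i) (x (emb A))| ≤ 1 := ⟨_, rfl⟩
  have hmem : ∀ A ∈ S, d * (k * s) ≤ nev A ∧ Sep s A ∧ ∀ i, |rs (A i) (x (emb A))| ≤ 1 :=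
    fun A hA => by
      rw [hS] at hA
      exact (mem_filter.1 hA).2
  have step1 : ∀ A₀ : Fin m → Fin n → Bool,
      ∑ A ∈ S, ind (plant A₀ (M A) = A) * ex3 (T := T) q p (fun U ε C => ind (Run q U ε C (M A))) ≤
        ex3 q p fun U ε C => ind (∀ r, (q : ℤ) ∣ ∑ j, ((U r j : ℕ) : ℤ) * x (out A₀ U ε C) j) := by
    intro A₀
    rw [← ex3_sum]
    refine ex3_mono h0 h1' fun U ε C => core_point S _ _ _ (fun A A' e1 r1 e2 r2 => hemb ?_) ?_
    · rw [← e1, ← link A₀ U ε C _ r1, link A₀ U ε C _ r2, e2]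
    · intro A hA e1 r1 r
      obtain ⟨g1, -, g3⟩ := hmem A hA
      obtain ⟨m1, m2, -, -⟩ := hM A g1
      rw [link A₀ U ε C _ r1, e1]
      refine run_sound r1 (fun y => even_zero (hx _) (m2 y) ?_) r
      obtain ⟨i, hi⟩ := m1 y
      rw [hi]
      exact g3 i
  have step2 : γ ^ (d * n) * ∑ A ∈ S, wm p A ≤
      ∑ A₀ : Fin m → Fin n → Bool, wm p A₀ * ∑ A ∈ S, ind (plant A₀ (M A) = A) *
        ex3 (T := T) q p (fun U ε C => ind (Run q U ε C (M A))) := by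
    simp only [mul_sum]
    rw [sum_comm]
    refine sum_le_sum fun A hA => ?_
    obtain ⟨g1, g2, -⟩ := hmem A hA
    obtain ⟨-, m2, m3, m4⟩ := hM A g1
    have h2 := run_lb (T := T) hq hn h0 h1' hγ hc (M A) (m3 g2) m2
    have h3 : 0 ≤ ∑ A₀ : Fin m → Fin n → Bool, wm p A₀ * ind (plant A₀ (M A) = A) :=
      sum_nonneg fun _ _ => mul_nonneg (wm_nonneg h0 h1' _) (ind_nonneg _)
    simp only [← mul_assoc]
    rw [← sum_mul]
    refine le_trans ?_ (mul_le_mul_of_nonneg_left h2 h3)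
    refine (mul_le_mul_of_nonneg_left m4 (pow_nonneg hγ _)).trans (le_of_eq ?_)
    ring
  have step3 : ∑ A : Fin m → Fin n → Bool, wm p A * ind (∀ i, |rs (A i) (x (emb A))| ≤ 1) ≤
      ∑ A ∈ S, wm p A + ∑ A : Fin m → Fin n → Bool, wm p A * ind (nev A < d * (k * s)) +
        ∑ A : Fin m → Fin n → Bool, wm p A * ind (¬ Sep s A) := by
    rw [hS, sum_filter, ← sum_add_distrib, ← sum_add_distrib]
    refine sum_le_sum fun A _ => ?_
    have h2 := mul_le_mul_of_nonneg_left (core_three (d * (k * s) ≤ nev A) (Sep s A)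
      (∀ i, |rs (A i) (x (emb A))| ≤ 1)) (wm_nonneg h0 h1' A)
    rw [mul_add, mul_add, not_le] at h2
    refine h2.trans (le_of_eq ?_)
    congr 2
    split_ifs with h
    · rw [ind_pos h, mul_one]
    · rw [ind_neg h, mul_zero]
  have step4 : ∑ A ∈ S, wm p A ≤ 1 := by
    rw [← sum_wm p m n]
    exact sum_le_sum_of_subset_of_nonneg (subset_univ _) fun _ _ _ => wm_nonneg h0 h1' _
  have step5 : γ ^ (d * n) ≤ 1 := pow_le_one₀ hγ hγ1
  have step6 := sum_le_sum fun A₀ (_ : A₀ ∈ (univ : Finset (Fin m → Fin n → Bool))) =>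
    mul_le_mul_of_nonneg_left (step1 A₀) (wm_nonneg h0 h1' A₀)
  have h5 := few_even h0 h1 m n (d * (k * s))
  have h6 := not_sep h0 h1 m n s
  have h7 := mul_nonneg (sub_nonneg.2 step4) (sub_nonneg.2 step5)
  refine le_trans ?_ (step2.trans step6)
  nlinarith

end Pool.Agent.Lib.MP_29d7aa_lc.Sis
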