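import Mathlib

/-! Reduction from short integer solutions to colourings of discrepancy one: the objects. -/

set_option autoImplicit false

namespace Pool.Agent.Lib.MP_29d7aa_lc.Sis

open Finset
open scoped Classical

noncomputable section

variable {m n d k s T D : ℕ}

/-- Indicator of a proposition. -/
def ind (P : Prop) : ℝ := if P then 1 else 0

/-- Bernoulli weight of a bit. -/
def wt (p : ℝ) (b : Bool) : ℝ := if b then p else 1 - p

/-- Bernoulli weight of a vector. -/
def wv (p : ℝ) (v : Fin n → Bool) : ℝ := ∏ j, wt p (v j)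

/-- Bernoulli weight of a matrix. -/
def wm (p : ℝ) (A : Fin m → Fin n → Bool) : ℝ := ∏ i, wv p (A i)

/-- Number of ones. -/
def cnt (v : Fin n → Bool) : ℕ := ∑ j, (v j).toNat

/-- A column of a group of rows: `k` classes of `s` rows. -/
abbrev Col (k s : ℕ) : Type := Fin k → Fin s → Bool

/-- The value of a column: class `a` has weight `2 ^ a`. -/
def val (c : Col k s) : ℕ := ∑ a : Fin k, 2 ^ (a : ℕ) * cnt (c a)

/-- The column has value `u` modulo `q` and class parities `e`. -/
def Hit (q u : ℕ) (e : Fin k → Bool) (c : Col k s) : Prop :=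
  val c % q = u ∧ ∀ a, (cnt (c a)).bodd = e a

/-- `c` is the first of the candidates `C` with property `P`. -/
def First {Ω : Type} (P : Ω → Prop) (C : Fin T → Ω) (c : Ω) : Prop :=
  P c ∧ ∃ τ, C τ = c ∧ ∀ τ' < τ, ¬ P (C τ')

/-- Target parities, adjusted in column `0` so that their sum over the columns is even. -/
def adj (ε : Fin n → Fin k → Bool) (j : Fin n) (a : Fin k) : Bool :=
  if (j : ℕ) = 0 then (cnt fun j' : Fin n => decide ((j' : ℕ) ≠ 0) && ε j' a).bodd else ε j a

/-- Rejection sampling selects the columns `M`. -/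
def Sel (q : ℕ) (U : Fin d → Fin n → Fin q) (ε : Fin d → Fin n → Fin k → Bool)
    (C : Fin d → Fin n → Fin T → Col k s) (M : Fin d → Fin n → Col k s) : Prop :=
  ∀ r j, First (Hit q (U r j) (adj (ε r) j)) (C r j) (M r j)

/-- The row served by column `j`. -/
def cls (s : ℕ) [NeZero s] (j : Fin n) : Fin s := Fin.ofNat s j

/-- Column `j` is the first one serving its row in which that row differs from row `0`. -/
def Piv [NeZero s] (N : Fin s → Fin n → Bool) (j : Fin n) : Prop :=
  (j : ℕ) % s ≠ 0 ∧ N 0 j ≠ N (cls s j) j ∧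
    ∀ j' < j, (j' : ℕ) % s = (j : ℕ) % s → N 0 j' = N (cls s j') j'

/-- Exchange, for the rows `i` with `S i`, the entries of rows `0` and `i` in the pivot column. -/
def flip [NeZero s] (N : Fin s → Fin n → Bool) (S : Fin s → Bool) (i : Fin s) (j : Fin n) : Bool :=
  xor (N i j) (decide (Piv N j ∧ S (cls s j) = true ∧ (i = 0 ∨ i = cls s j)))

/-- Repair the parities of the rows. -/
def fix [NeZero s] (N : Fin s → Fin n → Bool) : Fin s → Fin n → Bool :=
  flip N fun i => (cnt (N i)).bodd

/-- Numbering of the weighted rows. -/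
def enc (d k s : ℕ) : Fin d × Fin k × Fin s ≃ Fin (d * (k * s)) :=
  (Equiv.prodCongr (Equiv.refl _) finProdFinEquiv).trans finProdFinEquiv

/-- The sampler does not fail and produces the weighted rows `M`. -/
def Run [NeZero s] (q : ℕ) (U : Fin d → Fin n → Fin q) (ε : Fin d → Fin n → Fin k → Bool)
    (C : Fin d → Fin n → Fin T → Col k s) (M : Fin (d * (k * s)) → Fin n → Bool) : Prop :=
  ∃ M' : Fin d → Fin n → Col k s, Sel q U ε C M' ∧
    ∀ r a i, M (enc d k s (r, a, i)) = fix (fun i j => M' r j a i) i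

/-- Number of even rows before row `i`. -/
def rank (A : Fin m → Fin n → Bool) (i : Fin m) : ℕ :=
  cnt fun i' : Fin m => decide (i' < i) && !(cnt (A i')).bodd

/-- Replace the first `D` even rows of `A` by the rows of `M`. -/
def plant (A : Fin m → Fin n → Bool) (M : Fin D → Fin n → Bool) (i : Fin m) : Fin n → Bool :=
  if h : (cnt (A i)).bodd = false ∧ rank A i < D then M ⟨rank A i, h.2⟩ else A i

/-- Number of even rows. -/
def nev (A : Fin m → Fin n → Bool) : ℕ := cnt fun i => !(cnt (A i)).bodd

/-- Any two rows differ in a column of each residue class modulo `s`. -/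
def Sep (s : ℕ) (A : Fin m → Fin n → Bool) : Prop :=
  ∀ i i', i ≠ i' → ∀ c < s, ∃ j : Fin n, (j : ℕ) % s = c ∧ A i j ≠ A i' j

/-- Signed sum of a row. -/
def rs (v : Fin n → Bool) (x : Fin n → ℤ) : ℤ := ∑ j, (if v j then 1 else 0) * x j

/-- Expectation over a uniform instance, uniform parities and Bernoulli candidates. -/
def ex3 (q : ℕ) (p : ℝ) (F : (Fin d → Fin n → Fin q) → (Fin d → Fin n → Fin k → Bool) →
    (Fin d → Fin n → Fin T → Col k s) → ℝ) : ℝ :=
  (∑ U, ∑ ε, ∑ C, (∏ r, ∏ j, ∏ τ, wm p (C r j τ)) * F U ε C) / (q ^ (d * n) * 2 ^ (d * n * k))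

/-- One cell of the sampler hits a given column with at least `γ` times the ideal probability. -/
def Cell (q k s T : ℕ) (p γ : ℝ) : Prop :=
  ∀ (u : ℕ) (e : Fin k → Bool) (c : Col k s), Hit q u e c →
    γ * (q * 2 ^ k) * wm p c ≤ ∑ C : Fin T → Col k s, (∏ τ, wm p (C τ)) * ind (First (Hit q u e) C c)

end

end Pool.Agent.Lib.MP_29d7aa_lc.Sis
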