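import Pool.Agent.Lib.MP_29d7aa_lc.Sis.Basic

set_option autoImplicit false

namespace Pool.Agent.Lib.MP_29d7aa_lc.Sis

open Finset
open scoped Classical

variable {m n d k s T D : ℕ} {p : ℝ}

variable [NeZero s]

theorem flip_eq_iff (N : Fin s → Fin n → Bool) (S : Fin s → Bool) (j : Fin n) :
    flip N S 0 j = flip N S (cls s j) j ↔ N 0 j = N (cls s j) j := by
  simp [flip]

theorem flip_cls_iff (j : Fin n) (i : Fin s) : i = cls s j ↔ (j : ℕ) % s = i := by
  rw [Fin.ext_iff, cls, Fin.val_ofNat, eq_comm]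

theorem flip_cls_ne {N : Fin s → Fin n → Bool} {j : Fin n} (h : Piv N j) : cls s j ≠ 0 :=
  fun e => h.1 ((flip_cls_iff j 0).1 e.symm)

omit [NeZero s] in
theorem flip_bodd_xor (v w : Fin n → Bool) :
    (cnt fun j => xor (v j) (w j)).bodd = xor (cnt v).bodd (cnt w).bodd := by
  induction n with
  | zero => simp [cnt]
  | succ n ih =>
    rw [cnt_succ, cnt_succ v, cnt_succ w, Nat.bodd_add, Nat.bodd_add, Nat.bodd_add, ih]
    cases v 0 <;> cases w 0 <;> simp

theorem flip_congr (N : Fin s → Fin n → Bool) {S S' : Fin s → Bool} (h : ∀ i, i ≠ 0 → S i = S' i) :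
    flip N S = flip N S' := by
  funext i j
  unfold flip
  by_cases hp : Piv N j
  · rw [h _ (flip_cls_ne hp)]
  · simp [hp]

/-- In a pivot column both entries are negated, so `N 0 j = N (cls s j) j` is invariant. -/
theorem piv_flip (N : Fin s → Fin n → Bool) (S : Fin s → Bool) (j : Fin n) :
    Piv (flip N S) j ↔ Piv N j := by
  unfold Piv
  simp only [ne_eq, flip_eq_iff]

theorem flip_flip (N : Fin s → Fin n → Bool) (S : Fin s → Bool) : flip (flip N S) S = N := by
  funext i j
  have e : flip (flip N S) S i j = xor (flip N S i j)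
    (decide (Piv (flip N S) j ∧ S (cls s j) = true ∧ (i = 0 ∨ i = cls s j))) := rfl
  rw [e]
  simp only [piv_flip]
  simp [flip]

/-- In a pivot column `cls s j ≠ 0` and the two entries differ. -/
theorem cnt_flip_col (N : Fin s → Fin n → Bool) (S : Fin s → Bool) (j : Fin n) :
    (cnt fun i => flip N S i j) = cnt fun i => N i j := by
  by_cases h : Piv N j ∧ S (cls s j) = true
  · have h1 := h.1.2.1
    have e : ∀ i, flip N S i j = N (Equiv.swap 0 (cls s j) i) j := fun i => by
      by_cases h0 : i = 0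
      · subst h0
        rw [Equiv.swap_apply_left]
        simp only [flip, h.1, h.2, true_or, and_self, decide_true]
        revert h1
        cases N 0 j <;> cases N (cls s j) j <;> simp
      · by_cases hc : i = cls s j
        · subst hc
          rw [Equiv.swap_apply_right]
          simp only [flip, h.1, h.2, or_true, and_self, decide_true]
          revert h1
          cases N 0 j <;> cases N (cls s j) j <;> simp
        · rw [Equiv.swap_apply_of_ne_of_ne h0 hc]
          simp [flip, h0, hc]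
    simp only [e]
    exact Equiv.sum_comp (Equiv.swap 0 (cls s j)) fun i => (N i j).toNat
  · have h' : ∀ P : Prop, ¬ (Piv N j ∧ S (cls s j) = true ∧ P) := fun P e => h ⟨e.1, e.2.1⟩
    simp [flip, h']

/-- `wm_transpose`, `wv_eq_pow`, `cnt_flip_col`. -/
theorem wm_flip (p : ℝ) (N : Fin s → Fin n → Bool) (S : Fin s → Bool) :
    wm p (flip N S) = wm p N := by
  rw [wm_transpose, wm_transpose p N]
  exact prod_congr rfl fun j _ => by rw [wv_eq_pow, wv_eq_pow, cnt_flip_col]

/-- Each row `i ≠ 0` has exactly one pivot column (the least `j` with `j % s = i` in which rows `0`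
and `i` differ). -/
theorem exists_piv {N : Fin s → Fin n → Bool} (hN : Sep s N) {i : Fin s} (hi : i ≠ 0) :
    ∃ j, ∀ j', (Piv N j' ∧ i = cls s j') ↔ j' = j := by
  obtain ⟨j, ⟨h1, h2⟩, hmin⟩ := (wellFounded_lt (α := Fin n)).has_min
    {j : Fin n | (j : ℕ) % s = i ∧ N 0 j ≠ N i j} (hN 0 i hi.symm i i.2)
  have h3 := (flip_cls_iff j i).2 h1
  refine ⟨j, fun j' => ⟨fun h => ?_, ?_⟩⟩
  · have h4 := (flip_cls_iff j' i).1 h.2
    rcases lt_trichotomy j' j with hl | hl | hl
    · exact absurd hl (hmin j' ⟨h4, h.2 ▸ h.1.2.1⟩)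
    · exact hl
    · exact absurd (h.1.2.2 j hl (h1.trans h4.symm)) (h3 ▸ h2)
  · rintro rfl
    refine ⟨⟨fun e => hi (Fin.ext (h1.symm.trans e)), h3 ▸ h2, fun j'' hl e => ?_⟩, h3⟩
    rw [← (flip_cls_iff j'' i).2 (e.trans h1)]
    by_contra hne
    exact hmin j'' ⟨e.trans h1, hne⟩ hl

theorem bodd_flip_row {N : Fin s → Fin n → Bool} (hN : Sep s N) (S : Fin s → Bool) {i : Fin s}
    (hi : i ≠ 0) : (cnt (flip N S i)).bodd = xor (cnt (N i)).bodd (S i) := by
  obtain ⟨j, hj⟩ := exists_piv hN hi
  have e : flip N S i = fun j' => xor (N i j') (decide (j' = j) && S i) := by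
    funext j'
    unfold flip
    congr 1
    by_cases h : j' = j
    · obtain ⟨h1, h2⟩ := (hj j').2 h
      rw [decide_eq_true h]
      simp [h1, ← h2]
    · have h2 : ¬ (Piv N j' ∧ S (cls s j') = true ∧ (i = 0 ∨ i = cls s j')) := fun e =>
        h ((hj j').1 ⟨e.1, e.2.2.resolve_left hi⟩)
      rw [decide_eq_false h2, decide_eq_false h, Bool.false_and]
  have e2 : (cnt fun j' => decide (j' = j) && S i) = (S i).toNat := by
    unfold cnt
    rw [sum_eq_single j (fun b _ hb => by simp [hb]) (fun h => absurd (mem_univ j) h)]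
    simp
  rw [e, flip_bodd_xor, e2]
  cases S i <;> rfl

/-- `flip N S` only depends on the values of `S` off `0`. -/
theorem fix_flip {N : Fin s → Fin n → Bool} (hN : Sep s N) (he : ∀ i, (cnt (N i)).bodd = false)
    (S : Fin s → Bool) : fix (flip N S) = N := by
  unfold fix
  rw [flip_congr _ (S' := S) fun i hi => by rw [bodd_flip_row hN S hi, he, Bool.false_xor],
    flip_flip]

theorem flip_inj {N : Fin s → Fin n → Bool} (hN : Sep s N) {S S' : Fin s → Bool} (h0 : S 0 = S' 0)
    (h : flip N S = flip N S') : S = S' := by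
  funext i
  by_cases hi : i = 0
  · rw [hi, h0]
  · have h1 := bodd_flip_row hN S hi
    rw [h, bodd_flip_row hN S' hi] at h1
    exact (Bool.xor_right_inj.1 h1).symm

theorem even_total {N : Fin s → Fin n → Bool} (he : ∀ i, (cnt (N i)).bodd = false)
    (S : Fin s → Bool) : Even (∑ j, cnt fun i => flip N S i j) := by
  simp only [cnt_flip_col]
  unfold cnt
  rw [sum_comm]
  exact Finset.even_sum _ fun i _ => Nat.even_iff.2 ((bodd_false_iff _).1 (he i))

end Pool.Agent.Lib.MP_29d7aa_lc.Sis
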