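import Pool.Agent.Lib.MP_29d7aa_lc.Sis.Root

set_option autoImplicit false

namespace Pool.Agent.Lib.MP_29d7aa_lc.Sis

open Finset
open scoped Classical

variable {m n d k s T D : ℕ} {p : ℝ}

theorem four_par (x : ℕ) (b : Bool) (w : ℂ) : ((ind (x.bodd = b) : ℝ) : ℂ) * w ^ x =
    (w ^ x + (if b then -1 else 1) * (-w) ^ x) / 2 := by
  rcases Nat.even_or_odd x with h | h
  · rw [h.neg_pow, (bodd_false_iff x).2 (Nat.even_iff.1 h)]
    cases b <;> simp [ind]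
  · rw [h.neg_pow, (bodd_true_iff x).2 (Nat.odd_iff.1 h)]
    cases b <;> simp [ind]

/-- Generating function of a column with prescribed class parities: `z ^ val c` is the product of
the `(z ^ 2 ^ a) ^ cnt (c a)`, the parity condition is `(1 ± (-1) ^ cnt (c a)) / 2`; use `sum_pi`
(over the classes) and `sum_wv_pow` (with `w` and `-w`). -/
theorem gen_col (p : ℝ) (e : Fin k → Bool) (z : ℂ) :
    ∑ c : Col k s, (wm p c : ℂ) * (ind (∀ a, (cnt (c a)).bodd = e a) : ℝ) * z ^ val c =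
      ∏ a : Fin k, (((1 - (p : ℂ) + p * z ^ 2 ^ (a : ℕ)) ^ s +
        (if e a then -1 else 1) * (1 - (p : ℂ) + p * -z ^ 2 ^ (a : ℕ)) ^ s) / 2) := by
  have h1 : ∀ c : Col k s, (wm p c : ℂ) * (ind (∀ a, (cnt (c a)).bodd = e a) : ℝ) * z ^ val c =
      ∏ a : Fin k, ((wv p (c a) : ℂ) *
        ((ind ((cnt (c a)).bodd = e a) : ℝ) * (z ^ 2 ^ (a : ℕ)) ^ cnt (c a))) := fun c => by
    rw [ind_forall, wm, val, ← prod_pow_eq_pow_sum, prod_mul_distrib, prod_mul_distrib, mul_assoc]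
    simp only [Complex.ofReal_prod, pow_mul]
  simp only [h1]
  rw [sum_pi fun (a : Fin k) (v : Fin s → Bool) =>
    (wv p v : ℂ) * ((ind ((cnt v).bodd = e a) : ℝ) * (z ^ 2 ^ (a : ℕ)) ^ cnt v)]
  refine prod_congr rfl fun a _ => ?_
  have h2 := sum_wv_pow p s (z ^ 2 ^ (a : ℕ))
  have h3 := sum_wv_pow p s (-z ^ 2 ^ (a : ℕ))
  simp only [Complex.coe_algebraMap] at h2 h3
  rw [← h2, ← h3, mul_sum, ← sum_add_distrib, sum_div]
  exact sum_congr rfl fun v _ => by rw [four_par]; ring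

theorem four_fac {x y : ℂ} {A B : ℝ} (b : Bool) (hx : ‖x‖ ≤ A) (hy : ‖y‖ ≤ B) :
    ‖(x ^ s + (if b then -1 else 1) * y ^ s) / 2‖ ≤ (A ^ s + B ^ s) / 2 := by
  have h1 : ‖(if b then -1 else 1 : ℂ)‖ = 1 := by cases b <;> simp
  rw [norm_div, Complex.norm_two]
  refine div_le_div_of_nonneg_right ((norm_add_le _ _).trans ?_) zero_le_two
  rw [norm_mul, h1, one_mul, norm_pow, norm_pow]
  gcongr

theorem four_pow {E : ℝ} (h0 : 0 ≤ E) (h1 : E ≤ 1) (k : ℕ) : (1 + E) ^ k ≤ 1 + (2 ^ k - 1) * E := by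
  induction k with
  | zero => simp
  | succ k ih =>
    have h2 : 0 ≤ (2 ^ k - 1) * E := mul_nonneg (sub_nonneg.2 (one_le_pow₀ one_le_two)) h0
    rw [pow_succ, pow_succ]
    nlinarith [mul_le_mul_of_nonneg_right ih (add_nonneg zero_le_one h0),
      mul_le_mul_of_nonneg_left h1 h2]

theorem four_geom {q : ℕ} {y : ℂ} (hy : y ^ q = 1) :
    ∑ ξ ∈ range q, y ^ ξ = q * (ind (y = 1) : ℝ) := by
  by_cases h : y = 1
  · simp [h, ind]
  · rw [geom_sum_eq h, hy, ind_neg h]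
    simp

/-- With `ζ = exp (2 π i / q)` (`Complex.isPrimitiveRoot_exp`): if `val c % q = u` then
`1 = (1 / q) ∑ ξ < q, ζ ^ (ξ * val c) * ζ⁻¹ ^ (ξ * u)`, and in general this sum is `0` or `1`, so
the left side is at most `(1 / q) ∑ ξ < q, ‖gen_col (ζ ^ ξ)‖`. For `ξ = 0` the product is at most
`((1 + δ) / 2) ^ k ≤ 2⁻¹ ^ k + δ` with `δ = (1 - 2 p) ^ s ≤ exp (-(p s / 4))` (`0 ≤ δ ≤ 1`, so
`(1 + δ) ^ k ≤ 1 + 2 ^ k δ`). For `0 < ξ < q` all factors have norm at most `1` (`norm_step_one`) and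
the one given by `root_far` has norm at most `exp (-(p / 4)) ^ s` (`norm_step` for `w`, `-w`). -/
theorem hit_le {q : ℕ} (hq : Odd q) (hk : 5 * q ^ 2 ≤ 3 ^ k) (h0 : 0 ≤ p) (h1 : p ≤ 1 / 2) (u : ℕ)
    (e : Fin k → Bool) :
    ∑ c : Col k s, wm p c * ind (Hit q u e c) ≤ 1 / (q * 2 ^ k) + Real.exp (-(p * s / 4)) := by
  have hq0 : q ≠ 0 := hq.pos.ne'
  obtain ⟨ζ, hζ⟩ : ∃ ζ : ℂ, IsPrimitiveRoot ζ q := ⟨_, Complex.isPrimitiveRoot_exp q hq0⟩
  have hn : ‖ζ‖ = 1 := hζ.norm'_eq_one hq0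
  have hE : Real.exp (-(p * s / 4)) = Real.exp (-(p / 4)) ^ s := by
    rw [← Real.exp_nat_mul]
    congr 1
    ring
  have hE1 : Real.exp (-(p / 4)) ^ s ≤ 1 :=
    pow_le_one₀ (by positivity) (Real.exp_le_one_iff.2 (by linarith))
  rw [hE]
  obtain ⟨X, hX⟩ : ∃ X, X = ∑ c : Col k s, wm p c *
      (ind (ζ ^ val c * ζ⁻¹ ^ u = 1) * ind (∀ a, (cnt (c a)).bodd = e a)) := ⟨_, rfl⟩
  have k1 : ∑ c : Col k s, wm p c * ind (Hit q u e c) ≤ X := by
    rw [hX]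
    refine sum_le_sum fun c _ => mul_le_mul_of_nonneg_left ?_ (wm_nonneg h0 (by linarith) c)
    rw [← ind_and]
    refine ind_mono fun h => ⟨?_, h.2⟩
    rw [pow_eq_pow_mod _ hζ.pow_eq_one, h.1, ← mul_pow, mul_inv_cancel₀ (hζ.ne_zero hq0), one_pow]
  have k2 : ((q * X : ℝ) : ℂ) = ∑ ξ ∈ range q, (ζ⁻¹ ^ u) ^ ξ * ∑ c : Col k s,
      (wm p c : ℂ) * (ind (∀ a, (cnt (c a)).bodd = e a) : ℝ) * (ζ ^ ξ) ^ val c := by
    simp only [mul_sum]
    rw [sum_comm, hX, mul_sum, Complex.ofReal_sum]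
    refine sum_congr rfl fun c _ => ?_
    have h2 := four_geom (q := q) (y := ζ ^ val c * ζ⁻¹ ^ u) (by
      rw [mul_pow, pow_right_comm, pow_right_comm ζ⁻¹, hζ.pow_eq_one, hζ.inv.pow_eq_one]
      simp)
    have h3 : ∀ ξ ∈ range q, (ζ⁻¹ ^ u) ^ ξ * ((wm p c : ℂ) *
        (ind (∀ a, (cnt (c a)).bodd = e a) : ℝ) * (ζ ^ ξ) ^ val c) = (wm p c : ℂ) *
        (ind (∀ a, (cnt (c a)).bodd = e a) : ℝ) * (ζ ^ val c * ζ⁻¹ ^ u) ^ ξ := fun ξ _ => by
      rw [mul_pow, pow_right_comm ζ ξ]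
      ring
    rw [sum_congr rfl h3, ← mul_sum, h2]
    push_cast
    ring
  have k3 : q * X ≤ ∑ ξ ∈ range q, ‖∏ a : Fin k, (((1 - (p : ℂ) + p * (ζ ^ ξ) ^ 2 ^ (a : ℕ)) ^ s +
      (if e a then -1 else 1) * (1 - (p : ℂ) + p * -(ζ ^ ξ) ^ 2 ^ (a : ℕ)) ^ s) / 2)‖ := by
    refine (le_abs_self _).trans ?_
    rw [← Real.norm_eq_abs, ← Complex.norm_real, k2]
    refine (norm_sum_le _ _).trans (le_of_eq (sum_congr rfl fun ξ _ => ?_))
    rw [gen_col, norm_mul, norm_pow, norm_pow, norm_inv, hn, inv_one, one_pow, one_pow, one_mul]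
  obtain ⟨r, rfl⟩ := Nat.exists_eq_succ_of_ne_zero hq0
  rw [sum_range_succ'] at k3
  have k4 := k3.trans (add_le_add (b := r * Real.exp (-(p / 4)) ^ s)
    (d := ((1 + Real.exp (-(p / 4)) ^ s) / 2) ^ k) ?_ ?_)
  · have k5 := four_pow (by positivity) hE1 k
    have k6 : (0 : ℝ) < 2 ^ k := by positivity
    have k7 : ((1 + Real.exp (-(p / 4)) ^ s) / 2) ^ k ≤ 1 / 2 ^ k + Real.exp (-(p / 4)) ^ s := by
      rw [div_pow, div_add' _ _ _ k6.ne']
      refine div_le_div_of_nonneg_right (k5.trans ?_) k6.le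
      have : 0 ≤ Real.exp (-(p / 4)) ^ s := by positivity
      linarith
    refine k1.trans (le_of_mul_le_mul_left (k4.trans ?_) (by positivity))
    rw [mul_add, mul_one_div, ← div_div, div_self (by positivity)]
    push_cast
    linarith
  · refine (sum_le_card_nsmul _ _ (Real.exp (-(p / 4)) ^ s) fun ξ hξ => ?_).trans
      (by rw [card_range, nsmul_eq_mul])
    have hw : ∀ a : ℕ, ‖(ζ ^ (ξ + 1)) ^ 2 ^ a‖ = 1 := fun a => by
      rw [norm_pow, norm_pow, hn, one_pow, one_pow]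
    obtain ⟨a, ha, h2⟩ := root_far hq hk (z := ζ ^ (ξ + 1))
      (by rw [pow_right_comm, hζ.pow_eq_one, one_pow])
      (hζ.pow_ne_one_of_pos_of_lt ξ.succ_ne_zero (Nat.succ_lt_succ (mem_range.1 hξ)))
    rw [norm_prod, ← mul_prod_erase _ _ (mem_univ (⟨a, ha⟩ : Fin k))]
    refine (mul_le_of_le_one_right (norm_nonneg _) (prod_le_one (fun _ _ => norm_nonneg _)
      fun b _ => ?_)).trans ?_
    · refine (four_fac _ (norm_step_one h0 h1 (hw b))
        (norm_step_one h0 h1 ((norm_neg _).trans (hw b)))).trans (by norm_num)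
    · refine (four_fac _ (norm_step h0 h1 (hw a) (abs_le.1 h2).2)
        (norm_step h0 h1 ((norm_neg _).trans (hw a)) ?_)).trans (le_of_eq (add_self_div_two _))
      rw [Complex.neg_re]
      linarith [(abs_le.1 h2).1]
  · rw [norm_prod]
    refine (prod_le_prod (fun _ _ => norm_nonneg _) fun a _ => four_fac (A := 1) _
      (norm_step_one h0 h1 (by simp)) (norm_step h0 h1 (by simp) (by norm_num))).trans ?_
    rw [prod_const, card_univ, Fintype.card_fin, one_pow]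

end Pool.Agent.Lib.MP_29d7aa_lc.Sis
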