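import Pool.Agent.Lib.MP_29d7aa_lc.Sis.Basic

set_option autoImplicit false

namespace Pool.Agent.Lib.MP_29d7aa_lc.Sis

open Finset
open scoped Classical

variable {m n d k s T D : ℕ} {p : ℝ}

theorem first_unique {Ω : Type} {P : Ω → Prop} {C : Fin T → Ω} {c c' : Ω} (h : First P C c)
    (h' : First P C c') : c = c' := by
  obtain ⟨hc, τ, rfl, hτ⟩ := h
  obtain ⟨hc', τ', rfl, hτ'⟩ := h'
  rcases lt_trichotomy τ τ' with hlt | rfl | hlt
  · exact absurd hc (hτ' τ hlt)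
  · rfl
  · exact absurd hc' (hτ τ' hlt)

theorem fst_cons {Ω : Type} {P : Ω → Prop} {c : Ω} (hc : P c) (ω : Ω) (C : Fin T → Ω) :
    ind (ω = c) + ind (¬ P ω) * ind (First P C c) ≤
      ind (First P (Fin.cons ω C : Fin (T + 1) → Ω) c) := by
  by_cases h : ω = c
  · subst h
    rw [ind_pos rfl, ind_neg (not_not.2 hc), zero_mul, add_zero]
    exact (ind_pos ⟨hc, 0, rfl, fun τ' h => absurd h (Fin.not_lt_zero τ')⟩).ge
  · rw [ind_neg h, zero_add, ← ind_and]
    refine ind_mono ?_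
    rintro ⟨hω, -, τ, hτ, hlt⟩
    refine ⟨hc, τ.succ, hτ, fun τ' h' => ?_⟩
    induction τ' using Fin.cases with
    | zero => exact hω
    | succ τ' => exact hlt τ' (Fin.succ_lt_succ_iff.1 h')

theorem fst_compl {Ω : Type} [Fintype Ω] (w : Ω → ℝ) (h1 : ∑ ω, w ω = 1) (P : Ω → Prop) :
    ∑ ω, w ω * ind (¬ P ω) = 1 - ∑ ω, w ω * ind (P ω) := by
  simp only [ind_not, mul_sub, mul_one, sum_sub_distrib, h1]

theorem fst_compl_nonneg {Ω : Type} [Fintype Ω] (w : Ω → ℝ) (h0 : ∀ ω, 0 ≤ w ω)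
    (h1 : ∑ ω, w ω = 1) (P : Ω → Prop) : 0 ≤ 1 - ∑ ω, w ω * ind (P ω) := by
  rw [← fst_compl w h1]
  exact sum_nonneg fun ω _ => mul_nonneg (h0 ω) (ind_nonneg _)

/-- Induction on `T` (`Fin.consEquiv` or `Fin.sum_univ_succ`-type splitting: either the first
candidate is `c`, or it fails `P` and the tail selects `c`), with `ρ₀ = ∑ w * ind P`. -/
theorem first_geom {Ω : Type} [Fintype Ω] (w : Ω → ℝ) (h0 : ∀ ω, 0 ≤ w ω) (h1 : ∑ ω, w ω = 1)
    (P : Ω → Prop) {c : Ω} (hc : P c) (T : ℕ) :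
    w c * ∑ i ∈ range T, (1 - ∑ ω, w ω * ind (P ω)) ^ i ≤
      ∑ C : Fin T → Ω, (∏ τ, w (C τ)) * ind (First P C c) := by
  induction T with
  | zero =>
    rw [range_zero, sum_empty, mul_zero]
    exact sum_nonneg fun C _ => mul_nonneg (prod_nonneg fun _ _ => h0 _) (ind_nonneg _)
  | succ T ih =>
    have hs : ∑ C : Fin T → Ω, ∏ τ, w (C τ) = 1 := by
      rw [sum_pi fun (_ : Fin T) ω => w ω]
      simp only [h1, prod_const_one]
    have hw : ∑ ω, w ω * ind (ω = c) = w c := by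
      rw [sum_eq_single c (fun ω _ h => by rw [ind_neg h, mul_zero])
        (fun h => absurd (mem_univ c) h), ind_pos rfl, mul_one]
    have hn := fst_compl_nonneg w h0 h1 P
    rw [← (Fin.consEquiv fun _ : Fin (T + 1) => Ω).sum_comp, Fintype.sum_prod_type]
    calc w c * ∑ i ∈ range (T + 1), (1 - ∑ ω, w ω * ind (P ω)) ^ i
        = w c + (1 - ∑ ω, w ω * ind (P ω)) *
            (w c * ∑ i ∈ range T, (1 - ∑ ω, w ω * ind (P ω)) ^ i) := by
          rw [geom_sum_succ]; ring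
      _ ≤ w c + (1 - ∑ ω, w ω * ind (P ω)) *
            ∑ C : Fin T → Ω, (∏ τ, w (C τ)) * ind (First P C c) :=
          add_le_add_right (mul_le_mul_of_nonneg_left ih hn) _
      _ = (∑ ω, w ω * ind (ω = c)) * (∑ C : Fin T → Ω, ∏ τ, w (C τ)) +
            (∑ ω, w ω * ind (¬ P ω)) * ∑ C : Fin T → Ω, (∏ τ, w (C τ)) * ind (First P C c) := by
          rw [hw, hs, fst_compl w h1, mul_one]
      _ = ∑ ω, ∑ C : Fin T → Ω, (w ω * ∏ τ, w (C τ)) *
            (ind (ω = c) + ind (¬ P ω) * ind (First P C c)) := by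
          rw [sum_mul_sum, sum_mul_sum, ← sum_add_distrib]
          refine sum_congr rfl fun ω _ => ?_
          rw [← sum_add_distrib]
          exact sum_congr rfl fun C _ => by ring
      _ ≤ _ := by
          refine sum_le_sum fun ω _ => sum_le_sum fun C _ => ?_
          rw [Fin.prod_univ_succ]
          exact mul_le_mul_of_nonneg_left (fst_cons hc ω C)
            (mul_nonneg (h0 ω) (prod_nonneg fun _ _ => h0 _))

/-- If `ρ ≤ 1` compare with `∑ i < T, (1 - ρ) ^ i = (1 - (1 - ρ) ^ T) / ρ` and use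
`1 - ρ ≤ exp (-ρ)`; if `ρ > 1` and `T ≥ 1` the term `i = 0` is enough. -/
theorem first_lb {Ω : Type} [Fintype Ω] (w : Ω → ℝ) (h0 : ∀ ω, 0 ≤ w ω) (h1 : ∑ ω, w ω = 1)
    (P : Ω → Prop) {c : Ω} (hc : P c) (T : ℕ) {ρ : ℝ} (hρ : 0 < ρ)
    (hP : ∑ ω, w ω * ind (P ω) ≤ ρ) :
    (1 - Real.exp (-(ρ * T))) / ρ * w c ≤ ∑ C : Fin T → Ω, (∏ τ, w (C τ)) * ind (First P C c) := by
  refine le_trans ?_ (first_geom w h0 h1 P hc T)
  have hn := fst_compl_nonneg w h0 h1 P
  rw [mul_comm]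
  refine mul_le_mul_of_nonneg_left ?_ (h0 c)
  rcases le_or_gt ρ 1 with h | h
  · have e : ρ * ∑ i ∈ range T, (1 - ρ) ^ i = 1 - (1 - ρ) ^ T := by
      have := mul_neg_geom_sum (1 - ρ) T
      rwa [sub_sub_cancel] at this
    have h2 : (1 - ρ) ^ T ≤ Real.exp (-(ρ * T)) := by
      rw [show -(ρ * T) = T * -ρ by ring, Real.exp_nat_mul]
      exact pow_le_pow_left₀ (by linarith) (by linarith [Real.add_one_le_exp (-ρ)]) T
    calc (1 - Real.exp (-(ρ * T))) / ρ ≤ ∑ i ∈ range T, (1 - ρ) ^ i := by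
          rw [div_le_iff₀' hρ, e]; linarith
      _ ≤ _ := sum_le_sum fun i _ => pow_le_pow_left₀ (by linarith) (by linarith) i
  · cases T with
    | zero => simp
    | succ T =>
      have h2 : (1 - Real.exp (-(ρ * ((T + 1 : ℕ) : ℝ)))) / ρ ≤ 1 := by
        rw [div_le_one hρ]
        linarith [Real.exp_pos (-(ρ * ((T + 1 : ℕ) : ℝ)))]
      refine h2.trans ?_
      rw [sum_range_succ', pow_zero]
      exact le_add_of_nonneg_left (sum_nonneg fun i _ => pow_nonneg hn _)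

end Pool.Agent.Lib.MP_29d7aa_lc.Sis
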