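import Pool.Agent.Lib.MP_29d7aa_lc.Sis.Prog
import Pool.Agent.Lib.MP_29d7aa_lc.Sis.Fst

set_option autoImplicit false

namespace Pool.Agent.Lib.MP_29d7aa_lc.Sis

open Finset
open scoped Classical

variable {m n d k s T D : ℕ} {p : ℝ}

variable {R : ℕ}

theorem take_range {x : ℕ} (h : x ≤ R) : (List.range R).take x = List.range x := by
  rw [List.take_range, min_eq_left h]

theorem map_range {β : Type} (n : ℕ) (g : ℕ → β) :
    (List.range n).map g = List.ofFn fun i : Fin n => g i := by
  apply List.ext_getElem <;> simp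

theorem getD_ofFn {β : Type} (g : Fin n → β) (i : Fin n) (b : β) :
    (List.ofFn g).getD i b = g i := by
  simp [List.getD_eq_getElem?_getD]

theorem cntL_ofFn (v : Fin n → Bool) : cntL (List.ofFn v) = cnt v := by
  rw [cntL, List.map_ofFn, List.sum_ofFn]
  rfl

theorem valL_ofFn (hk : k ≤ R) (c : Col k s) :
    valL (List.range R) k (List.ofFn fun a => List.ofFn (c a)) = val c := by
  rw [valL, take_range hk, map_range, List.sum_ofFn]
  refine sum_congr rfl fun a _ => ?_
  rw [take_range (a.2.le.trans hk), List.length_range, getD_ofFn, cntL_ofFn]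

theorem hitL_ofFn (hk : k ≤ R) (q u : ℕ) (e : Fin k → Bool) (c : Col k s) :
    hitL (List.range R) k q u (List.ofFn e) (List.ofFn fun a => List.ofFn (c a)) = true ↔
      Hit q u e c := by
  rw [hitL, Bool.and_eq_true, decide_eq_true_iff, decide_eq_true_iff, valL_ofFn hk, List.map_ofFn,
    List.ofFn_inj, funext_iff]
  simp only [Function.comp, cntL_ofFn, Hit]

/-- Generic: the head of the filtered list is the first candidate (induction on `T`). -/
theorem head_filter {Ω β : Type} (φ : Ω → β) (P : Ω → Prop) (h : β → Bool)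
    (hP : ∀ c, h (φ c) = true ↔ P c) {C : Fin T → Ω} {c : Ω} (hc : First P C c) (b : β) :
    ((List.ofFn fun τ => φ (C τ)).filter h).headD b = φ c := by
  obtain ⟨h1, τ, rfl, h2⟩ := hc
  induction T with
  | zero => exact τ.elim0
  | succ T ih =>
    rw [List.ofFn_succ]
    refine Fin.cases (motive := fun τ => P (C τ) → (∀ τ' < τ, ¬ P (C τ')) → _ = φ (C τ))
      (fun h1 _ => ?_) (fun τ h1 h2 => ?_) τ h1 h2
    · rw [List.filter_cons_of_pos ((hP _).2 h1), List.headD_cons]
    · rw [List.filter_cons_of_neg fun h0 => h2 0 (Fin.succ_pos τ) ((hP _).1 h0)]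
      exact ih (C := fun τ => C τ.succ) τ (fun τ' h => h2 _ (Fin.succ_lt_succ_iff.2 h)) h1

theorem adjL_ofFn (hk : k ≤ R) (hn : n ≤ R) (ε : Fin n → Fin k → Bool) (j : Fin n) :
    adjL (List.range R) n k (List.ofFn fun j => List.ofFn (ε j)) j = List.ofFn (adj ε j) := by
  unfold adjL adj
  by_cases hj : (j : ℕ) = 0
  · simp only [hj, decide_true, cond_true, if_true]
    rw [take_range hk, take_range hn, map_range]
    refine congrArg _ (funext fun a => ?_)
    rw [map_range, cntL_ofFn]
    simp only [getD_ofFn, ne_eq, decide_not]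
  · simp only [hj, decide_false, cond_false, if_false, getD_ofFn]

theorem colsL_ofFn (hd : d ≤ R) (hk : k ≤ R) (hn : n ≤ R) {q : ℕ} {U : Fin d → Fin n → Fin q}
    {ε : Fin d → Fin n → Fin k → Bool} {C : Fin d → Fin n → Fin T → Col k s}
    {M : Fin d → Fin n → Col k s} (h : Sel q U ε C M) :
    colsL (List.range R) d n k q (List.ofFn fun r => List.ofFn fun j => (U r j : ℕ))
      (List.ofFn fun r => List.ofFn fun j => List.ofFn (ε r j))
      (List.ofFn fun r => List.ofFn fun j => List.ofFn fun τ => List.ofFn fun a =>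
        List.ofFn (C r j τ a)) =
    List.ofFn fun r => List.ofFn fun j => List.ofFn fun a => List.ofFn (M r j a) := by
  rw [colsL, take_range hd, take_range hn, map_range]
  refine congrArg _ (funext fun r => ?_)
  rw [map_range]
  refine congrArg _ (funext fun j => ?_)
  simp only [getD_ofFn]
  rw [adjL_ofFn hk hn, selL]
  exact head_filter (fun c : Col k s => List.ofFn fun a => List.ofFn (c a)) _ _
    (hitL_ofFn hk q _ _) (h r j) []

end Pool.Agent.Lib.MP_29d7aa_lc.Sis
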