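import Pool.Agent.Lib.MP_29d7aa_lc.Sis.Link1

set_option autoImplicit false

namespace Pool.Agent.Lib.MP_29d7aa_lc.Sis

open Finset
open scoped Classical

variable {m n d k s T D : ℕ} {p : ℝ}

variable {R : ℕ}

theorem clsL_ofFn (hs : s ≤ R) (hn : n ≤ R) (M : Fin d → Fin n → Col k s) (r : Fin d) (a : Fin k) :
    clsL (List.range R) n s
      (List.ofFn fun r => List.ofFn fun j => List.ofFn fun a => List.ofFn (M r j a)) r a =
    List.ofFn fun i => List.ofFn fun j => M r j a i := by
  unfold clsL
  rw [take_range hs, take_range hn, map_range]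
  refine congrArg List.ofFn (funext fun i => ?_)
  rw [map_range]
  refine congrArg List.ofFn (funext fun j => ?_)
  rw [getD_ofFn, getD_ofFn, getD_ofFn, getD_ofFn]

theorem link2_ent (N : Fin s → Fin n → Bool) (i : Fin s) (j : Fin n) :
    ent (List.ofFn fun i => List.ofFn (N i)) i j = N i j := by
  unfold ent
  rw [getD_ofFn, getD_ofFn]

theorem pivL_ofFn [NeZero s] (hn : n ≤ R) (N : Fin s → Fin n → Bool) (j : Fin n) :
    pivL (List.range R) s (List.ofFn fun i => List.ofFn (N i)) j = true ↔ Piv N j := by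
  have h0 : ∀ j' : Fin n, ent (List.ofFn fun i => List.ofFn (N i)) 0 j' = N 0 j' :=
    fun j' => link2_ent N 0 j'
  have h1 : ∀ j' : Fin n, ent (List.ofFn fun i => List.ofFn (N i)) (j' % s) j' =
      N (cls s j') j' := fun j' => link2_ent N (cls s j') j'
  unfold pivL Piv
  rw [take_range (j.2.le.trans hn), h0, h1]
  simp only [Bool.and_eq_true, Bool.not_eq_true', decide_eq_false_iff_not, List.all_eq_true,
    List.mem_range, Bool.or_eq_true, ne_eq]
  refine and_congr Iff.rfl (and_congr ?_ ⟨fun h j' hj e => ?_, fun h j' hj => ?_⟩)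
  · cases N 0 j <;> cases N (cls s j) j <;> simp
  · have h2 := (h j' hj).resolve_left (not_not.2 e)
    rw [h0, h1] at h2
    revert h2
    cases N 0 j' <;> cases N (cls s j') j' <;> simp
  · by_cases e : j' % s = j % s
    · right
      have h2 := h ⟨j', hj.trans j.2⟩ hj e
      have h3 := h0 ⟨j', hj.trans j.2⟩
      have h4 := h1 ⟨j', hj.trans j.2⟩
      simp only at h3 h4
      rw [h3, h4, h2, Bool.xor_self]
    · exact Or.inl e

theorem fixL_ofFn [NeZero s] (hn : n ≤ R) (N : Fin s → Fin n → Bool) (i : Fin s) :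
    fixL (List.range R) n s (List.ofFn fun i => List.ofFn (N i)) i = List.ofFn (fix N i) := by
  unfold fixL
  rw [take_range hn, map_range]
  refine congrArg List.ofFn (funext fun j => ?_)
  have h1 : (List.ofFn fun i => List.ofFn (N i)).getD (j % s) [] = List.ofFn (N (cls s j)) :=
    getD_ofFn (fun i => List.ofFn (N i)) (cls s j) []
  rw [link2_ent, h1, cntL_ofFn]
  unfold fix flip
  congr 1
  rw [Bool.eq_iff_iff]
  simp only [Bool.and_eq_true, Bool.or_eq_true, decide_eq_true_eq, pivL_ofFn hn]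
  refine and_congr Iff.rfl (and_congr Iff.rfl (or_congr ?_ ?_))
  · exact ⟨fun h => Fin.ext h, fun h => congrArg Fin.val h⟩
  · exact ⟨fun h => Fin.ext h, fun h => congrArg Fin.val h⟩

/-- `enc d k s (r, a, i)` has value `i + s * a + k * s * r`. -/
theorem rowsL_ofFn [NeZero s] (hD : d * (k * s) ≤ R) (hs : s ≤ R) (hn : n ≤ R)
    {M' : Fin d → Fin n → Col k s} {M : Fin (d * (k * s)) → Fin n → Bool}
    (h : ∀ r a i, M (enc d k s (r, a, i)) = fix (fun i j => M' r j a i) i) :
    rowsL (List.range R) d n k s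
      (List.ofFn fun r => List.ofFn fun j => List.ofFn fun a => List.ofFn (M' r j a)) =
    List.ofFn fun x => List.ofFn (M x) := by
  unfold rowsL
  rw [take_range hD, map_range]
  refine congrArg List.ofFn (funext fun x => ?_)
  obtain ⟨⟨r, a, i⟩, rfl⟩ := (enc d k s).surjective x
  have e : ((enc d k s (r, a, i) : Fin _) : ℕ) = (i + s * a) + k * s * r := rfl
  have hs0 : 0 < s := i.pos
  have hlt : (i : ℕ) + s * a < k * s := (finProdFinEquiv (a, i)).2
  have e1 : ((i : ℕ) + s * a + k * s * r) / (k * s) = r := by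
    rw [Nat.add_mul_div_left _ _ (by omega), Nat.div_eq_of_lt hlt, zero_add]
  have e2 : ((i : ℕ) + s * a + k * s * r) % (k * s) = i + s * a := by
    rw [Nat.add_mul_mod_self_left, Nat.mod_eq_of_lt hlt]
  have e3 : ((i : ℕ) + s * a) / s = a := by
    rw [Nat.add_mul_div_left _ _ hs0, Nat.div_eq_of_lt i.2, zero_add]
  have e4 : ((i : ℕ) + s * a) % s = i := by
    rw [Nat.add_mul_mod_self_left, Nat.mod_eq_of_lt i.2]
  rw [e, e1, e2, e3, e4, clsL_ofFn hs hn, h]
  exact fixL_ofFn hn (fun i j => M' r j a i) i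

theorem link2_rank (hm : m ≤ R) (A : Fin m → Fin n → Bool) (i : Fin m) :
    rankL (List.range R) m (List.ofFn fun i => List.ofFn (A i)) i = rank A i := by
  unfold rankL rank
  rw [take_range hm, map_range, cntL_ofFn]
  refine congrArg cnt (funext fun i' => ?_)
  rw [getD_ofFn, cntL_ofFn]
  congr 1

theorem plantL_ofFn (hm : m ≤ R) (A : Fin m → Fin n → Bool) (M : Fin D → Fin n → Bool) :
    plantL (List.range R) m D (List.ofFn fun i => List.ofFn (A i))
      (List.ofFn fun x => List.ofFn (M x)) = List.ofFn fun i => List.ofFn (plant A M i) := by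
  unfold plantL
  rw [take_range hm, map_range]
  refine congrArg List.ofFn (funext fun i => ?_)
  rw [link2_rank hm, getD_ofFn, cntL_ofFn]
  unfold plant
  split_ifs with h
  · have h2 := getD_ofFn (fun x => List.ofFn (M x)) ⟨rank A i, h.2⟩ []
    simp only at h2
    rw [h.1, decide_eq_true h.2, h2]
    rfl
  · have h2 : (!(cnt (A i)).bodd && decide (rank A i < D)) = false := by
      rw [Bool.eq_false_iff]
      intro h3
      simp only [Bool.and_eq_true, Bool.not_eq_true', decide_eq_true_eq] at h3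
      exact h h3
    rw [h2]
    rfl

theorem matL_ofFn [NeZero s] (hm : m ≤ R) (hd : d ≤ R) (hk : k ≤ R) (hn : n ≤ R) (hs : s ≤ R)
    (hD : d * (k * s) ≤ R) {q : ℕ} (A : Fin m → Fin n → Bool) {U : Fin d → Fin n → Fin q}
    {ε : Fin d → Fin n → Fin k → Bool} {C : Fin d → Fin n → Fin T → Col k s}
    {M : Fin (d * (k * s)) → Fin n → Bool} (h : Run q U ε C M) :
    matL (List.range R) m n d k s q (List.ofFn fun i => List.ofFn (A i))
      (List.ofFn fun r => List.ofFn fun j => (U r j : ℕ))
      (List.ofFn fun r => List.ofFn fun j => List.ofFn (ε r j))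
      (List.ofFn fun r => List.ofFn fun j => List.ofFn fun τ => List.ofFn fun a =>
        List.ofFn (C r j τ a)) = List.ofFn fun i => List.ofFn (plant A M i) := by
  obtain ⟨M', h1, h2⟩ := h
  unfold matL
  rw [colsL_ofFn hd hk hn h1, rowsL_ofFn hD hs hn h2, plantL_ofFn hm]

end Pool.Agent.Lib.MP_29d7aa_lc.Sis
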