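import Pool.Agent.Lib.MP_29d7aa_lc.Sis.Four
import Pool.Agent.Lib.MP_29d7aa_lc.Sis.Fst

set_option autoImplicit false

namespace Pool.Agent.Lib.MP_29d7aa_lc.Sis

open Finset
open scoped Classical

variable {m n d k s T D : ℕ} {p : ℝ}

/-- The sizes of the parameters; here `s = 20 * L * 2 ^ l / a + 1`, so `20 L ≤ p s ≤ 21 L`. -/
theorem sizes {q a l L : ℕ} (hp : p = a / 2 ^ l) (h1 : p ≤ 1 / 2) (hq : Odd q)
    (hL : m * n * q < 2 ^ L) (ht : 200 * d * (L : ℝ) ^ 2 ≤ p * m) (hn : 200 * (L : ℝ) ^ 2 ≤ p ^ 2 * n)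
    (hL1 : 1 ≤ L) (hd : 1 ≤ d) (hs : s = 20 * L * 2 ^ l / a + 1) :
    0 < p ∧ 1 ≤ l ∧ a ≤ 2 ^ l ∧ 0 < n ∧ 0 < m ∧ 20 * L ≤ p * s ∧ p * s ≤ 21 * L ∧
      4 * (d * (2 * L * s)) ≤ m ∧ 400 * L ≤ m ∧ d ≤ m ∧ s ≤ m ∧ 2 * L ≤ m ∧ m * n ≤ 2 ^ L ∧
      m ≤ 2 ^ L ∧ n ≤ 2 ^ L ∧ q < 2 ^ L ∧ 5 * L ≤ p * (n / s : ℕ) := by
  have hL1' : (1 : ℝ) ≤ L := by exact_mod_cast hL1
  have hd' : (1 : ℝ) ≤ d := by exact_mod_cast hd
  have h2l : (0 : ℝ) < 2 ^ l := by positivity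
  have hLL : (L : ℝ) ≤ (L : ℝ) ^ 2 := by nlinarith
  have hdL : (L : ℝ) ^ 2 ≤ d * (L : ℝ) ^ 2 := by nlinarith
  have hm0 : (0 : ℝ) ≤ m := Nat.cast_nonneg m
  have hpm : 0 < p * m := by nlinarith
  have hp0 : 0 < p := by
    by_contra h
    rw [not_lt] at h
    nlinarith
  have hap : (a : ℝ) = p * 2 ^ l := by
    rw [hp]
    field_simp
  have ha0 : 0 < a := by
    have : (0 : ℝ) < a := by rw [hap]; positivity
    exact_mod_cast this
  have hl1 : 1 ≤ l := by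
    by_contra h
    have h0 : l = 0 := by omega
    have : (1 : ℝ) ≤ a := by exact_mod_cast ha0
    rw [h0, pow_zero] at hap
    linarith
  have ha : a ≤ 2 ^ l := by
    have : (a : ℝ) ≤ 2 ^ l := by rw [hap]; nlinarith
    exact_mod_cast this
  have hn0 : 0 < n := by
    by_contra h
    have h0 : n = 0 := by omega
    rw [h0, Nat.cast_zero, mul_zero] at hn
    nlinarith
  have hm1 : 0 < m := by
    by_contra h
    have h0 : m = 0 := by omega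
    rw [h0, Nat.cast_zero, mul_zero] at hpm
    exact lt_irrefl _ hpm
  have hs1 : 1 ≤ s := by rw [hs]; exact Nat.le_add_left _ _
  have hlo : 20 * L ≤ p * s := by
    have h : 20 * L * 2 ^ l < a * s := by rw [hs]; exact Nat.lt_mul_div_succ _ ha0
    have h' : (20 * L * 2 ^ l : ℝ) < a * s := by exact_mod_cast h
    rw [hap] at h'
    have h'' : (20 * L : ℝ) * 2 ^ l < p * s * 2 ^ l := by linarith
    exact (lt_of_mul_lt_mul_right h'' h2l.le).le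
  have hhi : p * s ≤ 21 * L := by
    have h : a * s ≤ 20 * L * 2 ^ l + a := by
      rw [hs, mul_add, mul_one]
      exact Nat.add_le_add_right (Nat.mul_div_le _ _) _
    have h' : (a * s : ℝ) ≤ 20 * L * 2 ^ l + a := by exact_mod_cast h
    rw [hap] at h'
    have h'' : p * s * 2 ^ l ≤ (20 * L + p) * 2 ^ l := by linarith
    have := le_of_mul_le_mul_right h'' h2l
    linarith
  have hbig : 4 * (d * (2 * L * s)) ≤ m := by
    have h : p * (4 * (d * (2 * L * s))) ≤ p * m := by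
      have e : p * (4 * (d * (2 * L * s))) = 8 * (d * L) * (p * s) := by ring
      have h3 : 8 * ((d : ℝ) * L) * (p * s) ≤ 8 * (d * L) * (21 * L) :=
        mul_le_mul_of_nonneg_left hhi (by positivity)
      have h4 : (0 : ℝ) ≤ d * (L : ℝ) ^ 2 := by positivity
      rw [e]
      nlinarith
    have h' := le_of_mul_le_mul_left h hp0
    exact_mod_cast h'
  have h400 : 400 * L ≤ m := by
    have h : (400 * L : ℝ) ≤ m := by nlinarith
    exact_mod_cast h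
  have hLs : 1 ≤ 2 * L * s := Nat.mul_pos (by omega) hs1
  have hdm : d ≤ m := by
    have := Nat.mul_le_mul_left d hLs
    omega
  have hsm : s ≤ m := by
    have a1 : 1 * (1 * s) ≤ d * (2 * L * s) :=
      Nat.mul_le_mul hd (Nat.mul_le_mul_right s (by omega))
    omega
  have hq1 : 1 ≤ q := hq.pos
  have hmn : m * n ≤ 2 ^ L := by
    have := Nat.mul_le_mul_left (m * n) hq1
    omega
  have hmL : m ≤ 2 ^ L := (Nat.le_mul_of_pos_right m hn0).trans hmn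
  have hnL : n ≤ 2 ^ L := (Nat.le_mul_of_pos_left n hm1).trans hmn
  have hqL : q < 2 ^ L := lt_of_le_of_lt (Nat.le_mul_of_pos_left q (Nat.mul_pos hm1 hn0)) hL
  refine ⟨hp0, hl1, ha, hn0, hm1, hlo, hhi, hbig, h400, hdm, hsm, by omega, hmn, hmL, hnL, hqL, ?_⟩
  have h : n < s * (n / s + 1) := Nat.lt_mul_div_succ _ hs1
  have h' : (n : ℝ) < s * ((n / s : ℕ) + 1) := by exact_mod_cast h
  generalize ((n / s : ℕ) : ℝ) = t at h' ⊢
  by_contra hlt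
  rw [not_le] at hlt
  have a1 : p ^ 2 * n ≤ p ^ 2 * (s * (t + 1)) := mul_le_mul_of_nonneg_left h'.le (by positivity)
  have a2 : p ^ 2 * (s * (t + 1)) = (p * s) * (p * t + p) := by ring
  have a3 : (p * s) * (p * t + p) ≤ (p * s) * (6 * L) :=
    mul_le_mul_of_nonneg_left (by linarith) (by positivity)
  have a4 : (p * s) * (6 * L) ≤ (21 * L) * (6 * L) :=
    mul_le_mul_of_nonneg_right hhi (by positivity)
  nlinarith

theorem num_exp (L : ℕ) {x : ℝ} (hx : 5 * L ≤ x) : Real.exp (-x) ≤ 1 / 128 ^ L := by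
  have h1 : (128 : ℝ) ≤ Real.exp 5 := by
    have a1 : (2.7 : ℝ) ≤ Real.exp 1 := by linarith [Real.exp_one_gt_d9]
    have a2 : Real.exp 5 = Real.exp 1 ^ 5 := by
      rw [← Real.exp_nat_mul]
      norm_num
    have a3 : (2.7 : ℝ) ^ 5 ≤ Real.exp 1 ^ 5 := pow_le_pow_left₀ (by norm_num) a1 5
    rw [a2]
    linarith [show (128 : ℝ) ≤ 2.7 ^ 5 by norm_num]
  have h2 : (128 : ℝ) ^ L ≤ Real.exp x := by
    calc (128 : ℝ) ^ L ≤ Real.exp 5 ^ L := pow_le_pow_left₀ (by norm_num) h1 L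
      _ = Real.exp (L * 5) := (Real.exp_nat_mul 5 L).symm
      _ ≤ Real.exp x := Real.exp_le_exp.2 (by linarith)
  rw [Real.exp_neg, one_div]
  exact inv_anti₀ (by positivity) h2

theorem num_five {q L : ℕ} (hqL : q < 2 ^ L) (hL1 : 1 ≤ L) : 5 * q ^ 2 ≤ 3 ^ (2 * L) := by
  have h : ∀ j : ℕ, 5 * 4 ^ (j + 2) ≤ 9 ^ (j + 2) := by
    intro j
    induction j with
    | zero => norm_num
    | succ j ih =>
      rw [pow_succ 4 (j + 2), pow_succ 9 (j + 2)]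
      omega
  rcases Nat.lt_or_ge L 2 with h2 | h2
  · have h3 : L = 1 := by omega
    subst h3
    have h4 : q ≤ 1 := by omega
    have := Nat.pow_le_pow_left h4 2
    omega
  · obtain ⟨j, rfl⟩ := Nat.exists_eq_add_of_le' h2
    have a1 : q ^ 2 ≤ (2 ^ (j + 2)) ^ 2 := Nat.pow_le_pow_left hqL.le 2
    have a2 : (2 ^ (j + 2)) ^ 2 = 4 ^ (j + 2) := by
      rw [← pow_mul, mul_comm, pow_mul]
      norm_num
    have a3 : 3 ^ (2 * (j + 2)) = 9 ^ (j + 2) := by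
      rw [pow_mul]
      norm_num
    have := h j
    omega

theorem num_four {L : ℕ} (hL1 : 1 ≤ L) : 2 * L + 2 ≤ 4 ^ L := by
  induction L, hL1 using Nat.le_induction with
  | base => norm_num
  | succ j _ ih =>
    rw [pow_succ]
    omega

/-- `first_lb` with `ρ = 1 / H + exp (-(p s / 4))`, `H = q * 2 ^ (2 L) ≤ 8 ^ L` (`hit_le`;
`5 q ^ 2 ≤ 3 ^ (2 L)` since `q ≤ 2 ^ L - 1`), `H exp (-5 L) ≤ 2⁻¹ ^ (2 L + 2)` (`128 ≤ exp 5`),
`ρ T ≥ 4 ^ L ≥ 2 L + 2`. -/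
theorem cell_ok {q L : ℕ} (h0 : 0 < p) (h1 : p ≤ 1 / 2) (hq : Odd q) (hqL : q < 2 ^ L) (hL1 : 1 ≤ L)
    (hs : 20 * L ≤ p * s) : Cell q (2 * L) s (2 ^ (5 * L)) p (1 - 1 / 2 ^ (2 * L + 1)) := by
  intro u e c hc
  have hp1 : p ≤ 1 := by linarith
  have hq0 : (0 : ℝ) < q := by exact_mod_cast hq.pos
  have hqL' : (q : ℝ) ≤ 2 ^ L := by exact_mod_cast hqL.le
  obtain ⟨y, hy⟩ : ∃ y : ℝ, y = 2 ^ L := ⟨_, rfl⟩
  have hy2 : 2 ≤ y := by
    rw [hy]
    exact le_self_pow₀ (by norm_num) (by omega)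
  have hy0 : 0 < y := by linarith
  have e2 : (2 : ℝ) ^ (2 * L) = y ^ 2 := by rw [hy, ← pow_mul, mul_comm]
  have e5 : ((2 ^ (5 * L) : ℕ) : ℝ) = y ^ 5 := by
    rw [hy, ← pow_mul, mul_comm L 5]
    push_cast
    rfl
  have e7 : (128 : ℝ) ^ L = y ^ 7 := by
    rw [hy, ← pow_mul, mul_comm L 7, pow_mul]
    norm_num
  have e4 : (4 : ℝ) ^ L = y ^ 2 := by
    rw [hy, ← pow_mul, mul_comm L 2, pow_mul]
    norm_num
  rw [← hy] at hqL'
  obtain ⟨H, hH⟩ : ∃ H : ℝ, H = q * 2 ^ (2 * L) := ⟨_, rfl⟩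
  have hH0 : 0 < H := by rw [hH]; positivity
  have hH3 : H ≤ y ^ 3 := by
    rw [hH, e2]
    nlinarith [pow_pos hy0 2]
  obtain ⟨ρ, hρ⟩ : ∃ ρ : ℝ, ρ = 1 / H + Real.exp (-(p * s / 4)) := ⟨_, rfl⟩
  have hE := Real.exp_pos (-(p * s / 4))
  have hρ0 : 0 < ρ := by rw [hρ]; positivity
  have hhit := hit_le (s := s) hq (num_five hqL hL1) h0.le h1 u e
  rw [← hH, ← hρ] at hhit
  refine le_trans ?_ (first_lb (wm p) (wm_nonneg h0.le hp1) (sum_wm p _ _) _ hc _ hρ0 hhit)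
  refine mul_le_mul_of_nonneg_right ?_ (wm_nonneg h0.le hp1 c)
  rw [← hH, le_div_iff₀ hρ0, e5, pow_succ, e2]
  obtain ⟨x, hx⟩ : ∃ x : ℝ, x = 1 / (4 * y ^ 2) := ⟨_, rfl⟩
  have hx0 : 0 < x := by rw [hx]; positivity
  have b1 : H * ρ ≤ 1 + x := by
    have c1 := num_exp L (x := p * s / 4) (by linarith)
    rw [e7] at c1
    have c2 : H * Real.exp (-(p * s / 4)) ≤ y ^ 3 * (1 / y ^ 7) :=
      mul_le_mul hH3 c1 hE.le (by positivity)
    have c3 : y ^ 3 * (1 / y ^ 7) ≤ x := by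
      have d1 : y ^ 3 * (1 / y ^ 7) = 1 / (y ^ 2 * y ^ 2) := by field_simp
      rw [d1, hx]
      refine one_div_le_one_div_of_le (by positivity) ?_
      refine mul_le_mul_of_nonneg_right ?_ (by positivity)
      nlinarith
    have c4 : H * (1 / H) = 1 := by field_simp
    rw [hρ, mul_add, c4]
    linarith
  have b2 : Real.exp (-(ρ * y ^ 5)) ≤ x := by
    have c1 : y ^ 2 ≤ ρ * y ^ 5 := by
      have d1 : 1 / y ^ 3 ≤ ρ := by
        have := one_div_le_one_div_of_le hH0 hH3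
        rw [hρ]
        linarith
      have d2 : 1 / y ^ 3 * y ^ 5 = y ^ 2 := by field_simp
      rw [← d2]
      exact mul_le_mul_of_nonneg_right d1 (by positivity)
    have c2 : ((2 * L + 2 : ℕ) : ℝ) ≤ y ^ 2 := by
      rw [← e4]
      exact_mod_cast num_four hL1
    have c3 : (2 : ℝ) ≤ Real.exp 1 := by linarith [Real.exp_one_gt_d9]
    have c4 : 4 * y ^ 2 ≤ Real.exp (ρ * y ^ 5) := by
      calc 4 * y ^ 2 = 2 ^ (2 * L + 2) := by rw [pow_add, e2]; ring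
        _ ≤ Real.exp 1 ^ (2 * L + 2) := pow_le_pow_left₀ (by norm_num) c3 _
        _ = Real.exp ((2 * L + 2 : ℕ) * 1) := (Real.exp_nat_mul 1 _).symm
        _ ≤ Real.exp (ρ * y ^ 5) := Real.exp_le_exp.2 (by linarith)
    rw [Real.exp_neg, hx, one_div]
    exact inv_anti₀ (by positivity) c4
  have b3 : 1 / (y ^ 2 * 2) = 2 * x := by
    rw [hx]
    field_simp
    norm_num
  have b4 : 2 * x ≤ 1 := by
    rw [← b3, div_le_one (by positivity)]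
    nlinarith
  rw [b3, mul_assoc]
  have b5 : (1 - 2 * x) * (H * ρ) ≤ (1 - 2 * x) * (1 + x) :=
    mul_le_mul_of_nonneg_left b1 (by linarith)
  nlinarith

/-- The three terms are at most `1 / 4`, `1 / 4`, `1 / 2` times `1 / 2 ^ L`:
`2 ^ D (3/4) ^ m ≤ (2 (3/4) ^ 3) ^ D (3/4) ^ (m - 3 D)` with `m - 3 D ≥ 100 L`;
`m ^ 2 s ≤ 8 ^ L`, `4 * 16 ^ L ≤ exp (5 L)`; Bernoulli's inequality (`one_add_mul_le_pow`). -/
theorem err_ok {L : ℕ} (hL1 : 1 ≤ L) (hD : 4 * D ≤ m) (hm : 400 * L ≤ m) (hdm : d ≤ m) (hsm : s ≤ m)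
    (hmn : m * n ≤ 2 ^ L) (hmL : m ≤ 2 ^ L) (hp : 5 * L ≤ p * (n / s : ℕ)) :
    (2 : ℝ) ^ D * (3 / 4) ^ m + (m : ℝ) ^ 2 * s * Real.exp (-(p * (n / s : ℕ))) +
      (1 - (1 - 1 / 2 ^ (2 * L + 1) : ℝ) ^ (d * n)) ≤ 1 / 2 ^ L := by
  obtain ⟨y, hy⟩ : ∃ y : ℝ, y = 2 ^ L := ⟨_, rfl⟩
  have hy2 : 2 ≤ y := by
    rw [hy]
    exact le_self_pow₀ (by norm_num) (by omega)
  have hy0 : 0 < y := by linarith
  have e2 : (2 : ℝ) ^ (2 * L) = y ^ 2 := by rw [hy, ← pow_mul, mul_comm]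
  have e7 : (128 : ℝ) ^ L = y ^ 7 := by
    rw [hy, ← pow_mul, mul_comm L 7, pow_mul]
    norm_num
  have e3 : (1 / 8 : ℝ) ^ L = 1 / y ^ 3 := by
    rw [hy, ← pow_mul, mul_comm L 3, pow_mul, one_div_pow]
    norm_num
  have hq : 1 / y ^ 3 ≤ 1 / 4 * (1 / y) := by
    rw [one_div_mul_one_div]
    refine one_div_le_one_div_of_le (by positivity) ?_
    have : 4 ≤ y ^ 2 := by nlinarith
    nlinarith
  have t1 : (2 : ℝ) ^ D * (3 / 4) ^ m ≤ 1 / 4 * (1 / y) := by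
    have a1 : (3 / 4 : ℝ) ^ m ≤ (3 / 4) ^ (3 * D + 100 * L) :=
      pow_le_pow_of_le_one (by norm_num) (by norm_num) (by omega)
    have a2 : (2 : ℝ) ^ D * (3 / 4) ^ (3 * D + 100 * L) =
        (2 * (3 / 4) ^ 3) ^ D * ((3 / 4) ^ 100) ^ L := by
      rw [pow_add, pow_mul, pow_mul, mul_pow, mul_assoc]
    have a3 : (2 * (3 / 4) ^ 3 : ℝ) ^ D ≤ 1 := pow_le_one₀ (by norm_num) (by norm_num)
    have a4 : ((3 / 4 : ℝ) ^ 100) ^ L ≤ (1 / 8) ^ L :=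
      pow_le_pow_left₀ (by positivity) (by norm_num) L
    calc (2 : ℝ) ^ D * (3 / 4) ^ m ≤ 2 ^ D * (3 / 4) ^ (3 * D + 100 * L) :=
          mul_le_mul_of_nonneg_left a1 (by positivity)
      _ ≤ 1 * (1 / 8) ^ L := by
          rw [a2]
          exact mul_le_mul a3 a4 (by positivity) zero_le_one
      _ ≤ 1 / 4 * (1 / y) := by rw [one_mul, e3]; exact hq
  have hm' : (m : ℝ) ≤ y := by rw [hy]; exact_mod_cast hmL
  have t2 : (m : ℝ) ^ 2 * s * Real.exp (-(p * (n / s : ℕ))) ≤ 1 / 4 * (1 / y) := by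
    have a1 := num_exp L hp
    rw [e7] at a1
    have a2 : (s : ℝ) ≤ y := le_trans (by exact_mod_cast hsm) hm'
    have a3 : (m : ℝ) ^ 2 * s ≤ y ^ 2 * y :=
      mul_le_mul (pow_le_pow_left₀ (by positivity) hm' 2) a2 (by positivity) (by positivity)
    have a4 : y ^ 2 * y * (1 / y ^ 7) = 1 / (y * y ^ 3) := by field_simp
    have a5 : 1 / (y * y ^ 3) ≤ 1 / y ^ 3 := by
      refine one_div_le_one_div_of_le (by positivity) ?_
      nlinarith [pow_pos hy0 3]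
    have a6 := mul_le_mul a3 a1 (Real.exp_pos _).le (by positivity)
    linarith
  have t3 : 1 - (1 - 1 / 2 ^ (2 * L + 1) : ℝ) ^ (d * n) ≤ 1 / 2 * (1 / y) := by
    rw [pow_succ, e2]
    have a0 : 1 / (y ^ 2 * 2) ≤ 1 := by
      rw [div_le_one (by positivity)]
      nlinarith
    have a1 := one_add_mul_le_pow (a := -(1 / (y ^ 2 * 2))) (by linarith) (d * n)
    have a2 : ((d * n : ℕ) : ℝ) ≤ y := by
      rw [hy]
      exact_mod_cast (Nat.mul_le_mul_right n hdm).trans hmn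
    have a3 : ((d * n : ℕ) : ℝ) * (1 / (y ^ 2 * 2)) ≤ y * (1 / (y ^ 2 * 2)) :=
      mul_le_mul_of_nonneg_right a2 (by positivity)
    have a4 : y * (1 / (y ^ 2 * 2)) = 1 / 2 * (1 / y) := by field_simp
    rw [← sub_eq_add_neg] at a1
    linarith
  rw [← hy]
  linarith

end Pool.Agent.Lib.MP_29d7aa_lc.Sis
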