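import Pool.Agent.Lib.MP_29d7aa_lc.Sis.Coin

set_option autoImplicit false

namespace Pool.Agent.Lib.MP_29d7aa_lc.Sis

open Finset
open scoped Classical

variable {m n d k s T D : ℕ} {p : ℝ}

variable {R : ℕ}

/-- Names of the biased bits used by the reduction. -/
abbrev Kap (m n d k s T ρ : ℕ) : Type :=
  (Fin m × Fin n) ⊕ (Fin d × Fin n × Fin k) ⊕ (Fin d × Fin n × Fin T × Fin k × Fin s) ⊕ Fin ρ

def code (B : ℕ) {ρ : ℕ} : Kap m n d k s T ρ → ℕ
  | .inl (i, j) => ix B 0 i j 0 0 0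
  | .inr (.inl (r, j, c)) => ix B 1 r j c 0 0
  | .inr (.inr (.inl (r, j, τ, c, i))) => ix B 2 r j τ c i
  | .inr (.inr (.inr i)) => ix B 3 i 0 0 0 0

def thr (a h : ℕ) {ρ : ℕ} : Kap m n d k s T ρ → ℕ
  | .inl _ => a
  | .inr (.inl _) => h
  | .inr (.inr (.inl _)) => a
  | .inr (.inr (.inr _)) => h

theorem split_dig {B a b c e : ℕ} (ha : a < B) (hc : c < B) (h : a + B * b = c + B * e) :
    a = c ∧ b = e := by
  have h1 : a = c := by
    have := congrArg (· % B) h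
    simpa [Nat.add_mul_mod_self_left, Nat.mod_eq_of_lt ha, Nat.mod_eq_of_lt hc] using this
  subst h1
  exact ⟨rfl, Nat.eq_of_mul_eq_mul_left (by omega) (Nat.add_left_cancel h)⟩

theorem split_ix {B t x₁ x₂ x₃ x₄ x₅ u y₁ y₂ y₃ y₄ y₅ : ℕ} (h1 : x₁ < B) (h2 : x₂ < B)
    (h3 : x₃ < B) (h4 : x₄ < B) (h5 : x₅ < B) (k1 : y₁ < B) (k2 : y₂ < B) (k3 : y₃ < B)
    (k4 : y₄ < B) (k5 : y₅ < B) (h : ix B t x₁ x₂ x₃ x₄ x₅ = ix B u y₁ y₂ y₃ y₄ y₅) :
    t = u ∧ x₁ = y₁ ∧ x₂ = y₂ ∧ x₃ = y₃ ∧ x₄ = y₄ ∧ x₅ = y₅ := by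
  obtain ⟨e1, h⟩ := split_dig h1 k1 h
  obtain ⟨e2, h⟩ := split_dig h2 k2 h
  obtain ⟨e3, h⟩ := split_dig h3 k3 h
  obtain ⟨e4, h⟩ := split_dig h4 k4 h
  obtain ⟨e5, h⟩ := split_dig h5 k5 h
  exact ⟨h, e1, e2, e3, e4, e5⟩

theorem split_step {B a b c : ℕ} (ha : a < B) (hb : b + 1 ≤ c) : a + B * b + 1 ≤ B * c :=
  calc a + B * b + 1 ≤ B * (b + 1) := by rw [Nat.mul_succ]; omega
    _ ≤ B * c := Nat.mul_le_mul_left _ hb

theorem split_le {B t x₁ x₂ x₃ x₄ x₅ : ℕ} (h0 : t < B) (h1 : x₁ < B) (h2 : x₂ < B)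
    (h3 : x₃ < B) (h4 : x₄ < B) (h5 : x₅ < B) : B * (ix B t x₁ x₂ x₃ x₄ x₅ + 1) ≤ B ^ 7 :=
  calc B * (ix B t x₁ x₂ x₃ x₄ x₅ + 1) ≤ B * (B * (B * (B * (B * (B * B))))) :=
        Nat.mul_le_mul_left _
          (split_step h1 (split_step h2 (split_step h3 (split_step h4 (split_step h5 h0)))))
    _ = B ^ 7 := by ring

/-- The four curried parts of a family of bits. -/
def split_eqv (m n d k s T ρ : ℕ) : (Kap m n d k s T ρ → Bool) ≃
    (Fin ρ → Bool) × (Fin m → Fin n → Bool) × (Fin d → Fin n → Fin k → Bool) ×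
      (Fin d → Fin n → Fin T → Col k s) where
  toFun y := (fun i => y (.inr (.inr (.inr i))), fun i j => y (.inl (i, j)),
    fun r j c => y (.inr (.inl (r, j, c))), fun r j τ c i => y (.inr (.inr (.inl (r, j, τ, c, i)))))
  invFun z x := match x with
    | .inl (i, j) => z.2.1 i j
    | .inr (.inl (r, j, c)) => z.2.2.1 r j c
    | .inr (.inr (.inl (r, j, τ, c, i))) => z.2.2.2 r j τ c i
    | .inr (.inr (.inr i)) => z.1 i
  left_inv y := by
    funext x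
    rcases x with ⟨i, j⟩ | ⟨r, j, c⟩ | ⟨r, j, τ, c, i⟩ | i <;> rfl
  right_inv z := rfl

theorem split_half {l : ℕ} (hl1 : 1 ≤ l) (b : Bool) :
    wt (((2 ^ l / 2 : ℕ) : ℝ) / 2 ^ l) b = 1 / 2 := by
  obtain ⟨l, rfl⟩ := Nat.exists_eq_add_of_le' hl1
  have h : (((2 ^ (l + 1) / 2 : ℕ) : ℝ) / 2 ^ (l + 1)) = 1 / 2 := by
    rw [pow_succ, Nat.mul_div_cancel _ two_pos]
    push_cast
    field_simp
    ring
  rw [h]
  cases b <;> norm_num [wt]

theorem split_sum {α β γ δ κ : Type} [Fintype α] [Fintype β] [Fintype γ] [Fintype δ] [Fintype κ]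
    (e : κ ≃ α × β × γ × δ) (f : κ → ℝ) :
    ∑ y, f y = ∑ a, ∑ b, ∑ c, ∑ g, f (e.symm (a, b, c, g)) := by
  rw [← e.symm.sum_comp]
  simp only [Fintype.sum_prod_type]

/-- Digits in base `B`. -/
theorem code_inj {B ρ : ℕ} (h4 : 4 ≤ B) (hm : m ≤ B) (hn : n ≤ B) (hd : d ≤ B) (hk : k ≤ B)
    (hs : s ≤ B) (hT : T ≤ B) (hρ : ρ ≤ B) :
    Function.Injective (code B : Kap m n d k s T ρ → ℕ) ∧
      ∀ x : Kap m n d k s T ρ, B * (code B x + 1) ≤ B ^ 7 := by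
  have h0 : 0 < B := by omega
  constructor
  · intro x y h
    rcases x with ⟨i, j⟩ | ⟨r, j, c⟩ | ⟨r, j, τ, c, i⟩ | i <;>
      rcases y with ⟨i', j'⟩ | ⟨r', j', c'⟩ | ⟨r', j', τ', c', i'⟩ | i' <;>
      have h' := split_ix (by omega) (by omega) (by omega) (by omega) (by omega) (by omega)
        (by omega) (by omega) (by omega) (by omega) h <;>
      simp only [Sum.inl.injEq, Sum.inr.injEq, Prod.mk.injEq, Fin.ext_iff, reduceCtorEq] <;> omega
  · intro x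
    rcases x with ⟨i, j⟩ | ⟨r, j, c⟩ | ⟨r, j, τ, c, i⟩ | i <;>
      exact split_le (by omega) (by omega) (by omega) (by omega) (by omega) (by omega)

/-- `push` with `code`, `thr`, then an explicit equivalence of `Kap … → Bool` with the product of
the four curried function types (`Fintype.sum_equiv`, `Fintype.sum_prod_type`,
`Fintype.prod_sum_type`, `Fintype.prod_prod_type`); `wt (1 / 2) b = 1 / 2`. -/
theorem split {B ρ a l : ℕ} (h4 : 4 ≤ B) (hm : m ≤ B) (hn : n ≤ B) (hd : d ≤ B) (hk : k ≤ B)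
    (hs : s ≤ B) (hT : T ≤ B) (hρ : ρ ≤ B) (hl : l ≤ B) (hl1 : 1 ≤ l) (ha : a ≤ 2 ^ l)
    (hR : B ^ 7 ≤ R) (hp : p = a / 2 ^ l)
    (F : (Fin m → Fin n → Bool) → (Fin d → Fin n → Fin k → Bool) →
      (Fin d → Fin n → Fin T → Col k s) → (Fin ρ → Bool) → ℝ) :
    (∑ ω : Fin R → Bool,
      F (fun i j => coin (List.range R) (List.ofFn ω) B l a (ix B 0 i j 0 0 0))
        (fun r j c => coin (List.range R) (List.ofFn ω) B l (2 ^ l / 2) (ix B 1 r j c 0 0))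
        (fun r j τ c i => coin (List.range R) (List.ofFn ω) B l a (ix B 2 r j τ c i))
        (fun i => coin (List.range R) (List.ofFn ω) B l (2 ^ l / 2) (ix B 3 i 0 0 0 0))) / 2 ^ R =
    (∑ r : Fin ρ → Bool, ∑ A, wm p A * ∑ ε, ∑ C, (∏ r, ∏ j, ∏ τ, wm p (C r j τ)) * F A ε C r) /
      (2 ^ ρ * 2 ^ (d * n * k)) := by
  obtain ⟨hc, hB⟩ := code_inj (ρ := ρ) h4 hm hn hd hk hs hT hρ
  have hlR : l ≤ R := hl.trans ((Nat.le_self_pow (by norm_num) B).trans hR)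
  have h := push (R := R) (l := l) (code B : Kap m n d k s T ρ → ℕ) (thr a (2 ^ l / 2)) hc
    (fun x => (hB x).trans hR) hl hlR (fun x => by
      rcases x with _ | _ | _ | _
      · exact ha
      · exact Nat.div_le_self _ _
      · exact ha
      · exact Nat.div_le_self _ _)
    (fun y => F (split_eqv m n d k s T ρ y).2.1 (split_eqv m n d k s T ρ y).2.2.1
      (split_eqv m n d k s T ρ y).2.2.2 (split_eqv m n d k s T ρ y).1)
  refine Eq.trans h ?_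
  rw [split_sum (split_eqv m n d k s T ρ)]
  simp only [Equiv.apply_symm_apply, Finset.mul_sum, Finset.sum_div]
  refine Finset.sum_congr rfl fun r _ => Finset.sum_congr rfl fun A _ =>
    Finset.sum_congr rfl fun ε _ => Finset.sum_congr rfl fun C _ => ?_
  have e : (∏ x, wt ((thr a (2 ^ l / 2) x : ℝ) / 2 ^ l)
      ((split_eqv m n d k s T ρ).symm (r, A, ε, C) x)) =
      wm p A * ((1 / 2) ^ (d * n * k) * ((∏ r, ∏ j, ∏ τ, wm p (C r j τ)) * (1 / 2) ^ ρ)) := by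
    simp only [Fintype.prod_sum_type, Fintype.prod_prod_type, thr, split_half hl1, ← hp,
      Finset.prod_const, Finset.card_univ, Fintype.card_fin, Fintype.card_prod, ← mul_assoc d]
    rfl
  rw [e, one_div_pow, one_div_pow]
  field_simp

end Pool.Agent.Lib.MP_29d7aa_lc.Sis
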