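import Pool.Agent.Lib.MP_29d7aa_lc.Sis.Prog

set_option autoImplicit false

namespace Pool.Agent.Lib.MP_29d7aa_lc.Sis

open Pool.Agent.Lib.MP_acf5a6_lc N487b59b3

section

variable {α : Type} [N487b59b3 α]

@[fun_prop] theorem time_cntL {v : α → List Bool} (hv : PT v) : PT (fun a => cntL (v a)) :=
  PT.natSum (PT.map (f := fun _ b => Bool.toNat b) (Gd.toNat_PT (by fun_prop)) hv)

@[fun_prop] theorem time_valL {W : α → List ℕ} {k : α → ℕ} {c : α → List (List Bool)}
    (hW : PT W) (hk : PT k) (hc : PT c) : PT (fun a => valL (W a) (k a) (c a)) := by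
  unfold valL
  fun_prop

@[fun_prop] theorem time_hitL {W : α → List ℕ} {k q u : α → ℕ} {e : α → List Bool}
    {c : α → List (List Bool)} (hW : PT W) (hk : PT k) (hq : PT q) (hu : PT u) (he : PT e)
    (hc : PT c) : PT (fun a => hitL (W a) (k a) (q a) (u a) (e a) (c a)) := by
  unfold hitL
  fun_prop

@[fun_prop] theorem time_selL {W : α → List ℕ} {k q u : α → ℕ} {e : α → List Bool}
    {C : α → List (List (List Bool))} (hW : PT W) (hk : PT k) (hq : PT q) (hu : PT u) (he : PT e)
    (hC : PT C) : PT (fun a => selL (W a) (k a) (q a) (u a) (e a) (C a)) :=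
  PT.headD (PT.filter (f := fun a c => hitL (W a) (k a) (q a) (u a) (e a) c) (by fun_prop) hC)
    (PT.const _)

@[fun_prop] theorem time_adjL {W : α → List ℕ} {n k j : α → ℕ} {E : α → List (List Bool)}
    (hW : PT W) (hn : PT n) (hk : PT k) (hE : PT E) (hj : PT j) :
    PT (fun a => adjL (W a) (n a) (k a) (E a) (j a)) := by
  unfold adjL
  fun_prop

@[fun_prop] theorem time_colsL {W : α → List ℕ} {d n k q : α → ℕ} {U : α → List (List ℕ)}
    {E : α → List (List (List Bool))} {C : α → List (List (List (List (List Bool))))}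
    (hW : PT W) (hd : PT d) (hn : PT n) (hk : PT k) (hq : PT q) (hU : PT U) (hE : PT E)
    (hC : PT C) : PT (fun a => colsL (W a) (d a) (n a) (k a) (q a) (U a) (E a) (C a)) := by
  unfold colsL
  fun_prop

@[fun_prop] theorem time_clsL {W : α → List ℕ} {n s r b : α → ℕ}
    {M : α → List (List (List (List Bool)))} (hW : PT W) (hn : PT n) (hs : PT s) (hM : PT M)
    (hr : PT r) (hb : PT b) : PT (fun a => clsL (W a) (n a) (s a) (M a) (r a) (b a)) := by
  unfold clsL
  fun_prop

@[fun_prop] theorem time_ent {N : α → List (List Bool)} {i j : α → ℕ} (hN : PT N) (hi : PT i)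
    (hj : PT j) : PT (fun a => ent (N a) (i a) (j a)) := by
  unfold ent
  fun_prop

@[fun_prop] theorem time_pivL {W : α → List ℕ} {s j : α → ℕ} {N : α → List (List Bool)}
    (hW : PT W) (hs : PT s) (hN : PT N) (hj : PT j) :
    PT (fun a => pivL (W a) (s a) (N a) (j a)) := by
  unfold pivL
  fun_prop

@[fun_prop] theorem time_fixL {W : α → List ℕ} {n s i : α → ℕ} {N : α → List (List Bool)}
    (hW : PT W) (hn : PT n) (hs : PT s) (hN : PT N) (hi : PT i) :
    PT (fun a => fixL (W a) (n a) (s a) (N a) (i a)) := by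
  unfold fixL
  fun_prop

@[fun_prop] theorem time_rowsL {W : α → List ℕ} {d n k s : α → ℕ}
    {M : α → List (List (List (List Bool)))} (hW : PT W) (hd : PT d) (hn : PT n) (hk : PT k)
    (hs : PT s) (hM : PT M) : PT (fun a => rowsL (W a) (d a) (n a) (k a) (s a) (M a)) := by
  unfold rowsL
  fun_prop

@[fun_prop] theorem time_rankL {W : α → List ℕ} {m i : α → ℕ} {A : α → List (List Bool)}
    (hW : PT W) (hm : PT m) (hA : PT A) (hi : PT i) :
    PT (fun a => rankL (W a) (m a) (A a) (i a)) := by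
  unfold rankL
  fun_prop

@[fun_prop] theorem time_plantL {W : α → List ℕ} {m D : α → ℕ} {A M : α → List (List Bool)}
    (hW : PT W) (hm : PT m) (hD : PT D) (hA : PT A) (hM : PT M) :
    PT (fun a => plantL (W a) (m a) (D a) (A a) (M a)) := by
  unfold plantL
  fun_prop

@[fun_prop] theorem time_matL {W : α → List ℕ} {m n d k s q : α → ℕ} {A : α → List (List Bool)}
    {U : α → List (List ℕ)} {E : α → List (List (List Bool))}
    {C : α → List (List (List (List (List Bool))))} (hW : PT W) (hm : PT m) (hn : PT n)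
    (hd : PT d) (hk : PT k) (hs : PT s) (hq : PT q) (hA : PT A) (hU : PT U) (hE : PT E)
    (hC : PT C) :
    PT (fun a => matL (W a) (m a) (n a) (d a) (k a) (s a) (q a) (A a) (U a) (E a) (C a)) :=
  time_plantL hW hm (by fun_prop) hA
    (time_rowsL hW hd hn hk hs (time_colsL hW hd hn hk hq hU hE hC))

@[fun_prop] theorem time_coin {W : α → List ℕ} {ω : α → List Bool} {B l th x : α → ℕ}
    (hW : PT W) (hω : PT ω) (hB : PT B) (hl : PT l) (ht : PT th) (hx : PT x) :
    PT (fun a => coin (W a) (ω a) (B a) (l a) (th a) (x a)) :=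
  PT.decide_lt (PT.ofBitsM (PT.map (f := fun a b => (ω a).getD (b + B a * x a) false)
    (by fun_prop) (take_PT hW hl))) ht

@[fun_prop] theorem time_ix {B t x₁ x₂ x₃ x₄ x₅ : α → ℕ} (hB : PT B) (ht : PT t) (h₁ : PT x₁)
    (h₂ : PT x₂) (h₃ : PT x₃) (h₄ : PT x₄) (h₅ : PT x₅) :
    PT (fun a => ix (B a) (t a) (x₁ a) (x₂ a) (x₃ a) (x₄ a) (x₅ a)) := by
  unfold ix
  fun_prop

@[fun_prop] theorem time_pw5 {x : α → ℕ} (hx : PT x) : PT (fun a => pw5 (x a)) := by
  unfold pw5
  fun_prop

theorem time_red {f : List (List Bool) × List Bool → List Bool} (hf : PT f) {W : α → List ℕ}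
    {m n d k s T q b h l ρ B : α → ℕ} {U : α → List (List ℕ)} {ω : α → List Bool} (hW : PT W)
    (hm : PT m) (hn : PT n) (hd : PT d) (hk : PT k) (hs : PT s) (hT : PT T) (hq : PT q)
    (hb : PT b) (hh : PT h) (hl : PT l) (hρ : PT ρ) (hB : PT B) (hU : PT U) (hω : PT ω) :
    PT (fun a => red f (W a) (m a) (n a) (d a) (k a) (s a) (T a) (q a) (b a) (h a) (l a) (ρ a)
      (B a) (U a) (ω a)) := by
  have h0 : PT fun a => ((W a).take (m a)).map fun i => ((W a).take (n a)).map fun j =>
      coin (W a) (ω a) (B a) (l a) (b a) (ix (B a) 0 i j 0 0 0) := by fun_prop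
  have h1 : PT fun a => ((W a).take (d a)).map fun r => ((W a).take (n a)).map fun j =>
      ((W a).take (k a)).map fun c =>
        coin (W a) (ω a) (B a) (l a) (h a) (ix (B a) 1 r j c 0 0) := by fun_prop
  have h2 : PT fun a => ((W a).take (d a)).map fun r => ((W a).take (n a)).map fun j =>
      ((W a).take (T a)).map fun τ => ((W a).take (k a)).map fun c => ((W a).take (s a)).map
        fun i => coin (W a) (ω a) (B a) (l a) (b a) (ix (B a) 2 r j τ c i) := by fun_prop
  have h3 : PT fun a => ((W a).take (ρ a)).map fun i =>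
      coin (W a) (ω a) (B a) (l a) (h a) (ix (B a) 3 i 0 0 0 0) := by fun_prop
  exact PT.comp hf (PT.prodMk (time_matL hW hm hn hd hk hs hq h0 hU h1 h2) h3)

theorem time_red1 {f : List (List Bool) × List Bool → List Bool} (hf : PT f) {W : α → List ℕ}
    {m n q b l L ρ Pl PL : α → ℕ} {U : α → List (List ℕ)} {ω : α → List Bool} (hW : PT W)
    (hm : PT m) (hn : PT n) (hq : PT q) (hb : PT b) (hl : PT l) (hL : PT L) (hρ : PT ρ)
    (hP : PT Pl) (hQ : PT PL) (hU : PT U) (hω : PT ω) :
    PT (fun a => red1 f (W a) (m a) (n a) (q a) (b a) (l a) (L a) (ρ a) (Pl a) (PL a) (U a)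
      (ω a)) :=
  time_red hf hW hm hn (PT.length hU) (by fun_prop) (by fun_prop) (time_pw5 hQ) hq hb
    (by fun_prop) hl hρ (time_pw5 (by fun_prop)) hU hω

end

/-- One `fun_prop` lemma per definition of `Prog.lean`, as in `GAlg.lean` (`unfold`, `fun_prop`;
`PT.ofBitsM` for `coin`, `Gd.pow_PT`, `Gd.toNat_PT`, `take_PT`, `listGetD_PT`, `natDiv_PT`,
`PT.urange'` with `PT.ulen'` for the range, `PT_of_isPolyTime` from `MP_73cdf8_lc/Sim` for `f`). -/
theorem red2_PT {f : List (List Bool) × List Bool → List Bool} (hf : N68a2faeb.IsPolyTime f) :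
    PT (red2 f) := by
  have hW : PT fun x : List ℕ × List (List ℕ) × List Bool => List.range x.2.2.length :=
    PT.urange' (PT.ulen' (by fun_prop))
  have hg : ∀ i : ℕ, PT fun x : List ℕ × List (List ℕ) × List Bool => x.1.getD i 0 :=
    fun i => by fun_prop
  exact time_red1 (Pool.Agent.Lib.MP_73cdf8_lc.PT_of_isPolyTime hf) hW (hg 0) (hg 1) (hg 2) (hg 3)
    (hg 4) (hg 5) (hg 6) (Gd.pow_PT (take_PT hW (hg 4))) (Gd.pow_PT (take_PT hW (hg 5)))
    (by fun_prop) (by fun_prop)

end Pool.Agent.Lib.MP_29d7aa_lc.Sis
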