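import Pool.Agent.Lib.MP_29d7aa_lc.Sis.Core
import Pool.Agent.Lib.MP_29d7aa_lc.Sis.Num
import Pool.Agent.Lib.MP_29d7aa_lc.Sis.Split
import Pool.Agent.Lib.MP_29d7aa_lc.Sis.Link2
import Pool.Agent.Lib.MP_29d7aa_lc.Sis.Time

set_option autoImplicit false

namespace Pool.Agent.Lib.MP_29d7aa_lc.Sis

open Finset
open scoped Classical

variable {m n d k s T D R : ℕ} {p : ℝ}

/-- The colouring read off a bit list. -/
def sgn (y : List Bool) (j : Fin n) : ℤ := if y.getD j false then 1 else -1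

theorem sgn_cases (y : List Bool) (j : Fin n) : sgn y j = 1 ∨ sgn y j = -1 := by
  unfold sgn
  split_ifs <;> simp

/-- A matrix as a list of rows. -/
def emb (A : Fin m → Fin n → Bool) : List (List Bool) := List.ofFn fun i => List.ofFn (A i)

theorem emb_inj : Function.Injective (emb : (Fin m → Fin n → Bool) → List (List Bool)) := by
  intro A B h
  funext i
  exact List.ofFn_injective (congrFun (List.ofFn_injective h) i)

/-- The matrix built by the reduction. -/
def outM (R q : ℕ) (A : Fin m → Fin n → Bool) (U : Fin d → Fin n → Fin q)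
    (ε : Fin d → Fin n → Fin k → Bool) (C : Fin d → Fin n → Fin T → Col k s) : List (List Bool) :=
  matL (List.range R) m n d k s q (List.ofFn fun i => List.ofFn (A i))
    (List.ofFn fun r => List.ofFn fun j => (U r j : ℕ))
    (List.ofFn fun r => List.ofFn fun j => List.ofFn (ε r j))
    (List.ofFn fun r => List.ofFn fun j => List.ofFn fun τ => List.ofFn fun a =>
      List.ofFn (C r j τ a))

theorem red_eq (f : List (List Bool) × List Bool → List Bool) {q a h l ρ B : ℕ} (hm : m ≤ R)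
    (hn : n ≤ R) (hd : d ≤ R) (hk : k ≤ R) (hs : s ≤ R) (hT : T ≤ R) (hρ : ρ ≤ R)
    (U : Fin d → Fin n → Fin q) (ω : List Bool) :
    red f (List.range R) m n d k s T q a h l ρ B
      (List.ofFn fun r => List.ofFn fun j => (U r j : ℕ)) ω =
    f (outM (k := k) (s := s) (T := T) R q
        (fun (i : Fin m) (j : Fin n) => coin (List.range R) ω B l a (ix B 0 i j 0 0 0)) U
        (fun r j c => coin (List.range R) ω B l h (ix B 1 r j c 0 0))
        (fun r j τ c i => coin (List.range R) ω B l a (ix B 2 r j τ c i)),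
      List.ofFn fun i : Fin ρ => coin (List.range R) ω B l h (ix B 3 i 0 0 0 0)) := by
  unfold red outM
  simp only [take_range hm, take_range hn, take_range hd, take_range hk, take_range hs,
    take_range hT, take_range hρ, map_range]

theorem pw5_eq (x : ℕ) : pw5 x = x ^ 5 := by
  unfold pw5
  ring

theorem prob_le_one (h0 : 0 ≤ p) (h1 : p ≤ 1) {ρ : ℕ}
    (P : (Fin m → Fin n → Bool) → (Fin ρ → Bool) → Prop) :
    (∑ r, ∑ A, wm p A * ind (P A r)) / 2 ^ ρ ≤ 1 := by
  rw [div_le_one (by positivity)]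
  calc ∑ r : Fin ρ → Bool, ∑ A, wm p A * ind (P A r) ≤ ∑ _r : Fin ρ → Bool, (1 : ℝ) := by
        refine sum_le_sum fun r _ => ?_
        rw [← sum_wm p m n]
        exact sum_le_sum fun A _ => mul_le_of_le_one_right (wm_nonneg h0 h1 A) (ind_le_one _)
    _ = 2 ^ ρ := by simp

theorem main (f : List (List Bool) × List Bool → List Bool) {q a l L ρ : ℕ} (hp : p = a / 2 ^ l)
    (h1 : p ≤ 1 / 2) (hq : Odd q) (hL : m * n * q < 2 ^ L) (ht : 200 * d * (L : ℝ) ^ 2 ≤ p * m)
    (hn : 200 * (L : ℝ) ^ 2 ≤ p ^ 2 * n) (hR : (2 ^ L + l + ρ) ^ 35 ≤ R) :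
    (∑ r : Fin ρ → Bool, ∑ A : Fin m → Fin n → Bool,
      wm p A * ind (∀ i, |rs (A i) (sgn (f (emb A, List.ofFn r)))| ≤ 1)) / 2 ^ ρ - 1 / 2 ^ L ≤
    (∑ U : Fin d → Fin n → Fin q, ∑ ω : Fin R → Bool,
      ind (∀ i, (q : ℤ) ∣ ∑ j, ((U i j : ℕ) : ℤ) * sgn (red2 f ([m, n, q, a, l, L, ρ],
        List.ofFn fun r => List.ofFn fun j => (U r j : ℕ), List.ofFn ω)) j)) /
      (q ^ (d * n) * 2 ^ R) := by
  have h0 : 0 ≤ p := by rw [hp]; positivity
  have hq0 : 0 < q := hq.pos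
  have hP := prob_le_one (m := m) (n := n) h0 (by linarith)
    fun A (r : Fin ρ → Bool) => ∀ i, |rs (A i) (sgn (f (emb A, List.ofFn r)))| ≤ 1
  rcases Nat.eq_zero_or_pos L with rfl | hL1
  · refine le_trans (by simpa using hP) (div_nonneg (sum_nonneg fun U _ => sum_nonneg fun ω _ =>
      ind_nonneg _) (by positivity))
  rcases Nat.eq_zero_or_pos d with rfl | hd1
  · have : (0 : ℝ) < 1 / 2 ^ L := by positivity
    refine le_trans (by linarith : _ ≤ (1 : ℝ)) (le_of_eq ?_)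
    simp [ind]
  obtain ⟨s, hs⟩ : ∃ s, s = 20 * L * 2 ^ l / a + 1 := ⟨_, rfl⟩
  have : NeZero s := ⟨by rw [hs]; exact Nat.succ_ne_zero _⟩
  obtain ⟨p0, l1, al, n0, m0, ps, -, D4, mL, dm, sm, km, mn, m2, n2, q2, pv⟩ :=
    sizes hp h1 hq hL ht hn hL1 hd1 hs
  obtain ⟨B, hB⟩ : ∃ B, B = (2 ^ L + l + ρ) ^ 5 := ⟨_, rfl⟩
  have b2 : 2 ≤ 2 ^ L := by
    calc 2 = 2 ^ 1 := rfl
      _ ≤ 2 ^ L := Nat.pow_le_pow_right (by norm_num) hL1
  have b0 : 2 ^ L + l + ρ ≤ B := hB ▸ Nat.le_self_pow (by norm_num) _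
  have bT : 2 ^ (5 * L) ≤ B := by
    rw [hB, mul_comm, pow_mul]
    exact Nat.pow_le_pow_left (by omega) 5
  have b4 : 4 ≤ B := le_trans (by
    calc 4 ≤ 2 ^ 5 := by norm_num
      _ ≤ 2 ^ (5 * L) := Nat.pow_le_pow_right (by norm_num) (by omega)) bT
  have b7 : B ^ 7 ≤ R := by rwa [hB, ← pow_mul]
  have bR : B ≤ R := (Nat.le_self_pow (by norm_num) B).trans b7
  have e2 : ∀ (U : Fin d → Fin n → Fin q) (ω : Fin R → Bool), red2 f ([m, n, q, a, l, L, ρ],
      List.ofFn fun r => List.ofFn fun j => (U r j : ℕ), List.ofFn ω) =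
      red f (List.range R) m n d (2 * L) s (2 ^ (5 * L)) q a (2 ^ l / 2) l ρ B
        (List.ofFn fun r => List.ofFn fun j => (U r j : ℕ)) (List.ofFn ω) := fun U ω => by
    unfold red2 red1
    simp only [List.length_ofFn, List.getD_cons_zero, List.getD_cons_succ,
      take_range (show l ≤ R by omega), take_range (show L ≤ R by omega), List.length_range,
      pw5_eq, ← hs, ← hB, ← pow_mul, mul_comm L 5]
  have e3 := fun U : Fin d → Fin n → Fin q => split (m := m) (n := n) (d := d) (k := 2 * L) (s := s)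
    (T := 2 ^ (5 * L)) (R := R) (ρ := ρ) b4 (by omega) (by omega) (by omega) (by omega) (by omega)
    bT (by omega) (by omega) l1 al b7 hp fun A ε C r =>
      ind (∀ i, (q : ℤ) ∣ ∑ j, ((U i j : ℕ) : ℤ) * sgn (f (outM R q A U ε C, List.ofFn r)) j)
  have hc := fun r : Fin ρ → Bool => core (m := m) (d := d) hq0 n0 h0 h1
    (γ := 1 - 1 / 2 ^ (2 * L + 1))
    (by rw [sub_nonneg, div_le_one (by positivity)]; exact one_le_pow₀ (by norm_num))
    (by rw [sub_le_self_iff]; positivity) (cell_ok p0 h1 hq q2 hL1 ps) emb emb_inj (outM R q)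
    (fun A U ε C M h => matL_ofFn (by omega) (by omega) (by omega) (by omega) (by omega)
      (by omega) A h) (fun y => sgn (f (y, List.ofFn r))) fun y j => sgn_cases _ j
  have he := err_ok hL1 D4 mL dm sm mn m2 pv
  have e4 : (∑ U : Fin d → Fin n → Fin q, ∑ ω : Fin R → Bool,
      ind (∀ i, (q : ℤ) ∣ ∑ j, ((U i j : ℕ) : ℤ) * sgn (red2 f ([m, n, q, a, l, L, ρ],
        List.ofFn fun r => List.ofFn fun j => (U r j : ℕ), List.ofFn ω)) j)) /
      (q ^ (d * n) * 2 ^ R) =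
      (∑ r : Fin ρ → Bool, ∑ A : Fin m → Fin n → Bool, wm p A *
        ex3 (k := 2 * L) (s := s) (T := 2 ^ (5 * L)) q p fun (U : Fin d → Fin n → Fin q) ε C =>
        ind (∀ i, (q : ℤ) ∣ ∑ j, ((U i j : ℕ) : ℤ) * sgn (f (outM R q A U ε C, List.ofFn r)) j)) /
      2 ^ ρ := by
    rw [mul_comm ((q : ℝ) ^ (d * n)), ← div_div, sum_div]
    simp only [e2, red_eq f (show m ≤ R by omega) (show n ≤ R by omega) (show d ≤ R by omega)
      (show 2 * L ≤ R by omega) (show s ≤ R by omega) (bT.trans bR) (show ρ ≤ R by omega), e3]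
    unfold ex3
    simp only [← mul_div_assoc, ← sum_div, div_div]
    congr 1
    · rw [sum_comm]
      refine sum_congr rfl fun r _ => ?_
      rw [sum_comm]
      exact sum_congr rfl fun A _ => (mul_sum _ _ _).symm
    · ring
  rw [e4, le_div_iff₀ (by positivity), sub_mul, div_mul_cancel₀ _ (by positivity)]
  have e5 : (1 : ℝ) / 2 ^ L * 2 ^ ρ = ∑ _r : Fin ρ → Bool, (1 : ℝ) / 2 ^ L := by
    simp [mul_comm]
  rw [e5, ← sum_sub_distrib]
  exact sum_le_sum fun r _ => le_trans (by linarith) (hc r)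

end Pool.Agent.Lib.MP_29d7aa_lc.Sis
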