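import Pool.Agent.Lib.MP_29d7aa_lc.GAlg
import Pool.Agent.Lib.MP_73cdf8_lc.Sim
import Pool.Agent.Lib.MP_29d7aa_lc.Sis.Basic

/-! The reduction as a program on lists. `W` is a long range, `W.take x` is `List.range x`. -/

set_option autoImplicit false

namespace Pool.Agent.Lib.MP_29d7aa_lc.Sis

open Pool.Agent.Lib.MP_acf5a6_lc N487b59b3

def cntL (v : List Bool) : ℕ := (v.map Bool.toNat).sum

def valL (W : List ℕ) (k : ℕ) (c : List (List Bool)) : ℕ :=
  ((W.take k).map fun a => 2 ^ (W.take a).length * cntL (c.getD a [])).sum

def hitL (W : List ℕ) (k q u : ℕ) (e : List Bool) (c : List (List Bool)) : Bool :=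
  decide (valL W k c % q = u) && decide ((c.map fun v => (cntL v).bodd) = e)

def selL (W : List ℕ) (k q u : ℕ) (e : List Bool) (C : List (List (List Bool))) :
    List (List Bool) :=
  (C.filter (hitL W k q u e)).headD []

def adjL (W : List ℕ) (n k : ℕ) (E : List (List Bool)) (j : ℕ) : List Bool :=
  cond (decide (j = 0))
    ((W.take k).map fun a =>
      (cntL ((W.take n).map fun j' => !decide (j' = 0) && (E.getD j' []).getD a false)).bodd)
    (E.getD j [])

/-- The selected columns. -/
def colsL (W : List ℕ) (d n k q : ℕ) (U : List (List ℕ)) (E : List (List (List Bool)))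
    (C : List (List (List (List (List Bool))))) : List (List (List (List Bool))) :=
  (W.take d).map fun r => (W.take n).map fun j =>
    selL W k q ((U.getD r []).getD j 0) (adjL W n k (E.getD r []) j) ((C.getD r []).getD j [])

/-- The matrix of one class. -/
def clsL (W : List ℕ) (n s : ℕ) (M : List (List (List (List Bool)))) (r a : ℕ) :
    List (List Bool) :=
  (W.take s).map fun i => (W.take n).map fun j =>
    (((M.getD r []).getD j []).getD a []).getD i false

def ent (N : List (List Bool)) (i j : ℕ) : Bool := (N.getD i []).getD j false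

def pivL (W : List ℕ) (s : ℕ) (N : List (List Bool)) (j : ℕ) : Bool :=
  !decide (j % s = 0) && (xor (ent N 0 j) (ent N (j % s) j) &&
    (W.take j).all fun j' => !decide (j' % s = j % s) || !xor (ent N 0 j') (ent N (j' % s) j'))

def fixL (W : List ℕ) (n s : ℕ) (N : List (List Bool)) (i : ℕ) : List Bool :=
  (W.take n).map fun j => xor (ent N i j)
    (pivL W s N j && ((cntL (N.getD (j % s) [])).bodd && (decide (i = 0) || decide (i = j % s))))

/-- The weighted rows. -/
def rowsL (W : List ℕ) (d n k s : ℕ) (M : List (List (List (List Bool)))) : List (List Bool) :=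
  (W.take (d * (k * s))).map fun x =>
    fixL W n s (clsL W n s M (x / (k * s)) (x % (k * s) / s)) (x % (k * s) % s)

def rankL (W : List ℕ) (m : ℕ) (A : List (List Bool)) (i : ℕ) : ℕ :=
  cntL ((W.take m).map fun i' => decide (i' < i) && !(cntL (A.getD i' [])).bodd)

def plantL (W : List ℕ) (m D : ℕ) (A M : List (List Bool)) : List (List Bool) :=
  (W.take m).map fun i => cond (!(cntL (A.getD i [])).bodd && decide (rankL W m A i < D))
    (M.getD (rankL W m A i) []) (A.getD i [])

/-- The matrix handed to the colouring algorithm. -/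
def matL (W : List ℕ) (m n d k s q : ℕ) (A : List (List Bool)) (U : List (List ℕ))
    (E : List (List (List Bool))) (C : List (List (List (List (List Bool))))) : List (List Bool) :=
  plantL W m (d * (k * s)) A (rowsL W d n k s (colsL W d n k q U E C))

/-- A biased bit made from the `l` coins of block `x`. -/
def coin (W : List ℕ) (ω : List Bool) (B l th x : ℕ) : Bool :=
  decide ((((W.take l).map fun b => ω.getD (b + B * x) false).foldl
    (fun n b => Nat.bit b n) 0) < th)

def ix (B t x₁ x₂ x₃ x₄ x₅ : ℕ) : ℕ := x₁ + B * (x₂ + B * (x₃ + B * (x₄ + B * (x₅ + B * t))))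

/-- The reduction, with all parameters given. -/
def red (f : List (List Bool) × List Bool → List Bool) (W : List ℕ) (m n d k s T q a h l ρ B : ℕ)
    (U : List (List ℕ)) (ω : List Bool) : List Bool :=
  f (matL W m n d k s q
      ((W.take m).map fun i => (W.take n).map fun j => coin W ω B l a (ix B 0 i j 0 0 0)) U
      ((W.take d).map fun r => (W.take n).map fun j => (W.take k).map fun c =>
        coin W ω B l h (ix B 1 r j c 0 0))
      ((W.take d).map fun r => (W.take n).map fun j => (W.take T).map fun τ =>
        (W.take k).map fun c => (W.take s).map fun i => coin W ω B l a (ix B 2 r j τ c i)),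
    (W.take ρ).map fun i => coin W ω B l h (ix B 3 i 0 0 0 0))

def pw5 (x : ℕ) : ℕ := x * x * x * x * x

/-- The reduction with `W`, `2 ^ l` and `2 ^ L` given. -/
def red1 (f : List (List Bool) × List Bool → List Bool) (W : List ℕ) (m n q a l L ρ Pl PL : ℕ)
    (U : List (List ℕ)) (ω : List Bool) : List Bool :=
  red f W m n U.length (2 * L) (20 * L * Pl / a + 1) (pw5 PL) q a (Pl / 2) l ρ (pw5 (PL + l + ρ)) U ω

/-- The reduction; the parameters are `[m, n, q, a, l, L, ρ]`. -/
def red2 (f : List (List Bool) × List Bool → List Bool)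
    (x : List ℕ × List (List ℕ) × List Bool) : List Bool :=
  red1 f (List.range x.2.2.length) (x.1.getD 0 0) (x.1.getD 1 0) (x.1.getD 2 0) (x.1.getD 3 0)
    (x.1.getD 4 0) (x.1.getD 5 0) (x.1.getD 6 0)
    (2 ^ ((List.range x.2.2.length).take (x.1.getD 4 0)).length)
    (2 ^ ((List.range x.2.2.length).take (x.1.getD 5 0)).length) x.2.1 x.2.2

end Pool.Agent.Lib.MP_29d7aa_lc.Sis
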