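import Pool.Agent.Lib.MP_29d7aa_lc.Sis.Basic

set_option autoImplicit false

namespace Pool.Agent.Lib.MP_29d7aa_lc.Sis

open Finset
open scoped Classical

variable {m n d k s T D : ℕ} {p : ℝ}

theorem root_sq {w : ℂ} (hw : ‖w‖ = 1) : w.re * w.re + w.im * w.im = 1 := by
  rw [← Complex.normSq_apply, Complex.normSq_eq_norm_sq, hw, one_pow]

theorem root_step (p : ℝ) {w : ℂ} (hw : ‖w‖ = 1) :
    ‖1 - (p : ℂ) + p * w‖ ^ 2 = 1 - 2 * (p * (1 - p) * (1 - w.re)) := by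
  have h := root_sq hw
  rw [← Complex.normSq_eq_norm_sq, Complex.normSq_apply]
  simp only [Complex.add_re, Complex.sub_re, Complex.one_re, Complex.ofReal_re, Complex.mul_re,
    Complex.ofReal_im, Complex.add_im, Complex.sub_im, Complex.one_im, Complex.mul_im]
  linear_combination p ^ 2 * h

theorem root_dist {w : ℂ} (hw : ‖w‖ = 1) : ‖1 - w‖ ^ 2 = 2 * (1 - w.re) := by
  have h := root_sq hw
  rw [← Complex.normSq_eq_norm_sq, Complex.normSq_apply]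
  simp only [Complex.sub_re, Complex.one_re, Complex.sub_im, Complex.one_im]
  linear_combination h

theorem root_pow {w : ℂ} (hw : ‖w‖ = 1) (i : ℕ) : ‖1 - w ^ i‖ ≤ i * ‖1 - w‖ := by
  induction i with
  | zero => simp
  | succ i ih =>
    have e : 1 - w ^ (i + 1) = (1 - w ^ i) * w + (1 - w) := by ring
    rw [e]
    refine (norm_add_le _ _).trans ?_
    rw [norm_mul, hw]
    push_cast
    linarith

/-- Let `c a = re (z ^ 2 ^ a)`, so `c (a + 1) = 2 * c a ^ 2 - 1` (`‖z‖ = 1`). Suppose `|c a| > 1 / 2`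
for all `a < k`. Then `c a > -1 / 2` for `1 ≤ a ≤ k`, hence `c a > 1 / 2` for `1 ≤ a < k`, and
`δ a = 1 - c a` has `δ (a + 1) = 2 * δ a * (1 + c a) ≥ 3 * δ a` there; so `3 ^ (k - 1) * δ 1 ≤ δ k < 3 / 2`.
But `w = z ^ 2 ≠ 1` (`q` odd), `w ^ q = 1`, so `∑ i < q, w ^ i = 0`, and
`1 - re (w ^ i) = ‖1 - w ^ i‖ ^ 2 / 2 ≤ i ^ 2 * δ 1` gives `q ≤ q ^ 3 * δ 1`. -/
theorem root_far {q : ℕ} (hq : Odd q) (hk : 5 * q ^ 2 ≤ 3 ^ k) {z : ℂ} (hz : z ^ q = 1)
    (h1 : z ≠ 1) : ∃ a < k, |(z ^ 2 ^ a).re| ≤ 1 / 2 := by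
  by_contra hc
  push Not at hc
  have hq0 : q ≠ 0 := hq.pos.ne'
  have hn : ‖z‖ = 1 := Complex.norm_eq_one_of_pow_eq_one hz hq0
  have hu : ∀ a : ℕ, ‖z ^ a‖ = 1 := fun a => by rw [norm_pow, hn, one_pow]
  have c1 : ∀ a, (z ^ 2 ^ (a + 1)).re = 2 * (z ^ 2 ^ a).re ^ 2 - 1 := fun a => by
    have := root_sq (hu (2 ^ a))
    rw [pow_succ, pow_mul, sq, Complex.mul_re]
    linarith
  have c2 : ∀ a < k, -1 / 2 < (z ^ 2 ^ (a + 1)).re := fun a ha => by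
    have := hc a ha
    rw [c1, ← sq_abs]
    nlinarith
  have c3 : ∀ j, j < k → 3 ^ j * (1 - (z ^ 2).re) ≤ 1 - (z ^ 2 ^ (j + 1)).re := by
    intro j
    induction j with
    | zero => simp
    | succ j ih =>
      intro hj
      have a1 := ih (by omega)
      have a2 := c2 j (by omega)
      have a3 := hc (j + 1) hj
      have a4 : (z ^ 2 ^ (j + 1)).re ≤ 1 := (Complex.re_le_norm _).trans (hu _).le
      have a5 : 1 / 2 < (z ^ 2 ^ (j + 1)).re := (lt_abs.1 a3).resolve_right (by linarith)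
      rw [c1 (j + 1), pow_succ (3 : ℝ)]
      nlinarith
  have w1 : z ^ 2 ≠ 1 := fun e => by
    obtain ⟨t, rfl⟩ := hq
    rw [pow_succ, pow_mul, e, one_pow, one_mul] at hz
    exact h1 hz
  have w2 : ∑ i ∈ range q, (z ^ 2) ^ i = 0 := by
    rw [geom_sum_eq w1, ← pow_mul, mul_comm, pow_mul, hz, one_pow, sub_self, zero_div]
  have w3 : ∀ i ∈ range q, 1 - ((z ^ 2) ^ i).re ≤ (q : ℝ) ^ 2 * (1 - (z ^ 2).re) := fun i hi => by
    have a1 := root_pow (hu 2) i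
    have a2 := root_dist (hu 2)
    have a3 := root_dist (w := (z ^ 2) ^ i) (by rw [← pow_mul, hu])
    have a4 : (i : ℝ) ≤ q := by exact_mod_cast (mem_range.1 hi).le
    have a5 := pow_le_pow_left₀ (norm_nonneg _)
      (a1.trans (mul_le_mul_of_nonneg_right a4 (norm_nonneg _))) 2
    rw [mul_pow, a2, a3] at a5
    linarith
  have w4 := sum_le_sum w3
  rw [sum_sub_distrib, ← Complex.re_sum, w2, sum_const, sum_const, card_range, nsmul_eq_mul,
    nsmul_eq_mul, Complex.zero_re, sub_zero] at w4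
  have q0 : (0 : ℝ) < q := by exact_mod_cast hq.pos
  have w5 := le_of_mul_le_mul_left w4 q0
  obtain ⟨j, rfl⟩ : ∃ j, k = j + 1 := Nat.exists_eq_succ_of_ne_zero fun e => by
    have := pow_pos hq.pos 2
    rw [e, pow_zero] at hk
    omega
  have b1 := c3 j (by omega)
  have b2 := c2 j (by omega)
  have b3 : 5 * (q : ℝ) ^ 2 ≤ 3 ^ j * 3 := by exact_mod_cast hk
  have b4 : 0 ≤ 1 - (z ^ 2).re := sub_nonneg.2 ((Complex.re_le_norm _).trans (hu _).le)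
  nlinarith

/-- `‖1 - p + p w‖ ^ 2 = 1 - 2 p (1 - p) (1 - re w)`. -/
theorem norm_step_one (h0 : 0 ≤ p) (h1 : p ≤ 1 / 2) {w : ℂ} (hw : ‖w‖ = 1) :
    ‖1 - (p : ℂ) + p * w‖ ≤ 1 := by
  have h2 := root_step p hw
  have h3 : w.re ≤ 1 := (Complex.re_le_norm _).trans hw.le
  refine (pow_le_pow_iff_left₀ (norm_nonneg _) zero_le_one two_ne_zero).1 ?_
  have h4 := mul_nonneg (mul_nonneg h0 (by linarith : 0 ≤ 1 - p)) (sub_nonneg.2 h3)
  linarith

theorem norm_step (h0 : 0 ≤ p) (h1 : p ≤ 1 / 2) {w : ℂ} (hw : ‖w‖ = 1) (hr : w.re ≤ 1 / 2) :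
    ‖1 - (p : ℂ) + p * w‖ ≤ Real.exp (-(p / 4)) := by
  have h2 := root_step p hw
  refine (pow_le_pow_iff_left₀ (norm_nonneg _) (Real.exp_pos _).le two_ne_zero).1 ?_
  have h3 := Real.add_one_le_exp (-(p / 4) + -(p / 4))
  rw [Real.exp_add, ← sq] at h3
  have h4 := mul_nonneg (mul_nonneg h0 (by linarith : 0 ≤ 1 - p)) (sub_nonneg.2 hr)
  nlinarith

end Pool.Agent.Lib.MP_29d7aa_lc.Sis
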