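import Pool.Agent.Lib.MP_29d7aa_lc.Sis.Cell
import Pool.Agent.Lib.MP_29d7aa_lc.Sis.Flip
import Pool.Agent.Lib.MP_29d7aa_lc.Sis.Fst

set_option autoImplicit false

namespace Pool.Agent.Lib.MP_29d7aa_lc.Sis

open Finset
open scoped Classical

variable {m n d k s T D : ℕ} {p : ℝ}

theorem run_card [NeZero s] :
    (Fintype.piFinset fun i : Fin s => if i = 0 then ({false} : Finset Bool) else univ).card * 2 =
      2 ^ s := by
  have h1 : (2 : ℕ) = ∏ i : Fin s, if i = 0 then 2 else 1 := by simp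
  have h2 : (2 : ℕ) ^ s = ∏ _i : Fin s, 2 := by simp
  rw [Fintype.card_piFinset, h2]
  conv_lhs => rw [h1]
  rw [← prod_mul_distrib]
  refine prod_congr rfl fun i _ => ?_
  split_ifs <;> simp

theorem run_weight [NeZero s] (M : Fin (d * (k * s)) → Fin n → Bool)
    (S : Fin d → Fin k → Fin s → Bool) :
    ∏ r, ∏ j, wm p (fun a i => flip (fun i => M (enc d k s (r, a, i))) (S r a) i j) = wm p M := by
  have h1 : wm p M = ∏ r, ∏ a, ∏ i, wv p (M (enc d k s (r, a, i))) := by
    rw [wm, ← Equiv.prod_comp (enc d k s), Fintype.prod_prod_type]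
    exact prod_congr rfl fun r _ => Fintype.prod_prod_type _
  rw [h1]
  refine prod_congr rfl fun r _ => ?_
  simp only [wm]
  rw [prod_comm]
  refine prod_congr rfl fun a _ => ?_
  rw [← wm_transpose, wm_flip, wm]

/-- Put `N r a i = M (enc d k s (r, a, i))` (it satisfies `Sep s`). For
`S : Fin d → Fin k → Fin s → Bool` with `S r a 0 = false` (there are `2 ^ (d * k * (s - 1))`) let
`M' S r j a i = flip (N r a) (S r a) i j`. The events `Sel q U ε C (M' S)` are disjoint
(`first_unique`, `flip_inj`), each implies `Run` (`fix_flip`) and has probability at least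
`2 ^ (d * k) * γ ^ (d * n) * wm p M` (`sel_lb`, `even_total`, `wm_flip`, `wm_transpose`). Use
`ex3_sum`, `ex3_mono`. -/
theorem run_lb [NeZero s] {q : ℕ} (hq : 0 < q) (hn : 0 < n) (h0 : 0 ≤ p) (h1 : p ≤ 1) {γ : ℝ}
    (hγ : 0 ≤ γ) (hc : Cell q k s T p γ) (M : Fin (d * (k * s)) → Fin n → Bool) (hS : Sep s M)
    (he : ∀ x, (cnt (M x)).bodd = false) :
    2 ^ (d * (k * s)) * γ ^ (d * n) * wm p M ≤
      ex3 (T := T) q p fun U ε C => ind (Run q U ε C M) := by
  obtain ⟨B, hB⟩ : ∃ B, B =
    Fintype.piFinset fun i : Fin s => if i = 0 then ({false} : Finset Bool) else univ := ⟨_, rfl⟩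
  have hB0 : ∀ S ∈ B, S 0 = false := fun S h => by
    rw [hB] at h
    simpa using Fintype.mem_piFinset.1 h 0
  have hBc : (B.card : ℝ) * 2 = 2 ^ s := by
    rw [hB]
    exact_mod_cast run_card
  obtain ⟨W, hW⟩ : ∃ W, W = Fintype.piFinset fun _ : Fin d => Fintype.piFinset fun _ : Fin k => B :=
    ⟨_, rfl⟩
  have hW0 : ∀ S ∈ W, ∀ r a, S r a 0 = false := fun S h r a => by
    rw [hW] at h
    exact hB0 _ (Fintype.mem_piFinset.1 (Fintype.mem_piFinset.1 h r) a)
  have hWc : (W.card : ℝ) * 2 ^ (d * k) = 2 ^ (d * (k * s)) := by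
    rw [hW, Fintype.card_piFinset]
    simp only [Fintype.card_piFinset, prod_const, card_univ, Fintype.card_fin]
    push_cast
    rw [← pow_mul, mul_comm k d, ← mul_pow, hBc, ← pow_mul]
    congr 1
    ring
  have hN : ∀ r a, Sep s fun i => M (enc d k s (r, a, i)) := fun r a i i' h =>
    hS _ _ fun e => h (congrArg (fun x => x.2.2) ((enc d k s).injective e))
  refine le_trans ?_ (ex3_mono (F := fun U ε C => ∑ S ∈ W, 1 * ind (Sel q U ε C
    fun r j a i => flip (fun i => M (enc d k s (r, a, i))) (S r a) i j)) h0 h1 fun U ε C => ?_)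
  · rw [ex3_sum, ← hWc, mul_assoc, mul_assoc, ← nsmul_eq_mul, ← mul_assoc]
    refine card_nsmul_le_sum _ _ _ fun S _ => ?_
    rw [one_mul, ← run_weight M S]
    exact sel_lb hq hn h0 h1 hγ hc _ fun r a => even_total (fun i => he _) (S r a)
  · by_cases h : ∃ S ∈ W, Sel q U ε C
        fun r j a i => flip (fun i => M (enc d k s (r, a, i))) (S r a) i j
    · obtain ⟨S, hSW, hsel⟩ := h
      have hrun : Run q U ε C M := ⟨_, hsel, fun r a i =>
        (congrFun (fix_flip (hN r a) (fun i => he _) (S r a)) i).symm⟩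
      rw [ind_pos hrun, sum_eq_single_of_mem S hSW, ind_pos hsel, one_mul]
      intro S' hS' hne
      rw [ind_neg, mul_zero]
      intro hsel'
      refine hne (funext fun r => funext fun a => flip_inj (hN r a)
        ((hW0 _ hS' r a).trans (hW0 _ hSW r a).symm) (funext fun i => funext fun j => ?_))
      exact congrFun (congrFun (first_unique (hsel' r j) (hsel r j)) a) i
    · rw [sum_eq_zero fun S hSW => by rw [ind_neg fun e => h ⟨S, hSW, e⟩, mul_zero]]
      exact ind_nonneg _

end Pool.Agent.Lib.MP_29d7aa_lc.Sis
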